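import Pool.Agent.H62DW.Defs

/-!
# `E_m` is an iterated extension of `𝒪_C(-1)`
-/

set_option autoImplicit false

open LaurentPolynomial Pool.Agent.DWC

universe u

namespace Pool.Agent.H62DW

variable {k : Type u} [Field k]

/-- chains of layers -/
inductive Filt {X : Nbhd k} (E : Sh X) (d : ℤ) : Submodule X.B E.M → Submodule X.B E.M → ℕ → Prop
  | refl (P : Submodule X.B E.M) : Filt E d P P 0
  | step {P Q Q' : Submodule X.B E.M} {n : ℕ} (h : Filt E d P Q n) (hle : Q ≤ Q')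
      (hl : IsLayer E d Q Q') : Filt E d P Q' (n + 1)

theorem Filt.trans {X : Nbhd k} {E : Sh X} {d : ℤ} {P Q S : Submodule X.B E.M} {n m : ℕ}
    (h : Filt E d P Q n) (h' : Filt E d Q S m) : Filt E d P S (n + m) := by
  induction h' with
  | refl => exact h
  | step h1 hle hl ih => exact Filt.step ih hle hl

theorem Filt.exists_fun {X : Nbhd k} {E : Sh X} {d : ℤ} {P Q : Submodule X.B E.M} {n : ℕ}
    (h : Filt E d P Q n) : ∃ F : ℕ → Submodule X.B E.M, F 0 = P ∧ F n = Q ∧ ∀ j < n,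
      F j ≤ F (j + 1) ∧ IsLayer E d (F j) (F (j + 1)) := by
  induction h with
  | refl => exact ⟨fun _ => P, rfl, rfl, fun j hj => absurd hj (Nat.not_lt_zero j)⟩
  | @step Q Q' n h hle hl ih =>
    obtain ⟨F, h0, hn, hF⟩ := ih
    refine ⟨fun j => if j ≤ n then F j else Q', by simpa using h0, by simp, fun j hj => ?_⟩
    rcases Nat.lt_succ_iff_lt_or_eq.mp hj with h1 | h1
    · have h2 : j ≤ n := h1.le
      have h3 : j + 1 ≤ n := h1
      simp only [h2, h3, if_true]
      exact hF j h1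
    · subst h1
      have h3 : ¬ j + 1 ≤ j := by omega
      simp only [le_refl, if_true, h3, if_false, hn]
      exact ⟨hle, hl⟩

theorem Filt.loewy {X : Nbhd k} {E : Sh X} {d : ℤ} {n : ℕ} (h : Filt E d ⊥ ⊤ n) :
    Loewy E d n := by
  obtain ⟨F, h0, hn, hF⟩ := h.exists_fun
  exact ⟨F, h0, hn, hF⟩

/-- a layer from a functional relation -/
theorem isLayer_of_rel {X : Nbhd k} {E : Sh X} {d : ℤ} {P₁ P₂ : Submodule X.B E.M} {r : ℕ}
    (S : E.M → (Fin r → k[T;T⁻¹]) → Prop)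
    (tot : ∀ p ∈ P₂, ∃ f, S p f)
    (add : ∀ p q f g, S p f → S q g → S (p + q) (f + g))
    (smul : ∀ (b : X.B) p f, S p f → S (b • p) (fun i => X.res b * f i))
    (zero : ∀ f, S 0 f → f = 0)
    (ker : ∀ p ∈ P₂, S p 0 ↔ p ∈ P₁)
    (surj : ∀ f, ∃ p ∈ P₂, S p f)
    (c0 : ∀ p ∈ P₂, p ∈ E.M₀ → ∀ f, S p f → ∀ i, f i ∈ Reg0 k)
    (c0' : ∀ f : Fin r → k[T;T⁻¹], (∀ i, f i ∈ Reg0 k) → ∃ p ∈ P₂, p ∈ E.M₀ ∧ S p f)
    (c1 : ∀ p ∈ P₂, p ∈ E.M₁ → ∀ f, S p f → ∀ i, f i ∈ RegInf k d)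
    (c1' : ∀ f : Fin r → k[T;T⁻¹], (∀ i, f i ∈ RegInf k d) → ∃ p ∈ P₂, p ∈ E.M₁ ∧ S p f) :
    IsLayer E d P₁ P₂ := by
  classical
  have neg : ∀ p f, S p f → S (-p) (-f) := by
    intro p f h
    have h1 := smul (-1) p f h
    have h2 : (fun i => X.res (-1) * f i) = -f := by
      funext i
      simp
    rw [h2, neg_smul, one_smul] at h1
    exact h1
  have uniq : ∀ p f g, S p f → S p g → f = g := by
    intro p f g hf hg
    have h1 := add p (-p) f (-g) hf (neg p g hg)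
    rw [add_neg_cancel] at h1
    have h2 := zero _ h1
    exact add_neg_eq_zero.mp h2
  choose t ht using tot
  refine ⟨r, AddMonoidHom.mk' (fun p : P₂ => t p p.2) ?_, ?_, ?_, ?_, ?_, ?_⟩
  · intro p q
    exact uniq _ _ _ (ht _ _) (add _ _ _ _ (ht p p.2) (ht q q.2))
  · intro b p i
    exact congrFun (uniq _ _ _ (ht (b • p : P₂) (b • p).2) (smul b _ _ (ht p p.2))) i
  · intro f
    obtain ⟨p, hp, hf⟩ := surj f
    exact ⟨⟨p, hp⟩, uniq _ _ _ (ht _ _) hf⟩
  · intro p
    rw [← ker p p.2]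
    constructor
    · intro h
      have h1 := ht p p.2
      have h2 : t p p.2 = 0 := h
      rwa [h2] at h1
    · intro h
      exact uniq _ _ _ (ht _ _) h
  · intro f
    constructor
    · rintro ⟨p, hp, rfl⟩
      exact c0 p p.2 hp _ (ht p p.2)
    · intro hf
      obtain ⟨p, hp, hp0, hS⟩ := c0' f hf
      exact ⟨⟨p, hp⟩, hp0, uniq _ _ _ (ht _ _) hS⟩
  · intro f
    constructor
    · rintro ⟨p, hp, rfl⟩
      exact c1 p p.2 hp _ (ht p p.2)
    · intro hf
      obtain ⟨p, hp, hp0, hS⟩ := c1' f hf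
      exact ⟨⟨p, hp⟩, hp0, uniq _ _ _ (ht _ _) hS⟩

variable {X : Nbhd k} (D : Dat X)

/-! ### classes -/

theorem exists_mk (g : G D) : ∃ i u v, g = mk D i u v := by
  obtain ⟨⟨i, u, v⟩, rfl⟩ := Submodule.Quotient.mk_surjective _ g
  exact ⟨i, u, v, rfl⟩

theorem add_mk (i i' : IC X) (u u' v v' : PX X) :
    mk D i u v + mk D i' u' v' = mk D (i + i') (u + u') (v + v') := rfl

theorem smul_mk (b : X.B) (i : IC X) (u v : PX X) :
    b • mk D i u v = mk D (b • i) (X.res b * u) (X.res b * v) := rfl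

theorem mk_eq_zero {i : IC X} {u v : PX X} : mk D i u v = 0 ↔
    ∃ j : D.J, (i : X.B) = j ∧ u = -(D.lam j) ∧ v = -(tt X * D.lam j) := by
  unfold mk
  rw [Submodule.Quotient.mk_eq_zero, LinearMap.mem_range]
  constructor
  · rintro ⟨j, hj⟩
    have h1 := congrArg Prod.fst hj
    have h2 := congrArg (fun p => p.2.1) hj
    have h3 := congrArg (fun p => p.2.2) hj
    exact ⟨j, (congrArg Subtype.val h1).symm, h2.symm, h3.symm⟩
  · rintro ⟨j, h1, h2, h3⟩
    refine ⟨j, ?_⟩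
    refine Prod.ext (Subtype.ext h1.symm) (Prod.ext h2.symm h3.symm)

theorem mk_eq_mk' {i i' : IC X} {u u' v v' : PX X} (h : mk D i u v = mk D i' u' v') :
    ∃ j : D.J, (i : X.B) = i' + j ∧ u = u' - D.lam j ∧ v = v' - tt X * D.lam j := by
  have h1 : mk D (i - i') (u - u') (v - v') = 0 := by
    have h2 : mk D (i - i') (u - u') (v - v') = mk D i u v - mk D i' u' v' := rfl
    rw [h2, h, sub_self]
  obtain ⟨j, hj, hu, hv⟩ := (mk_eq_zero D).1 h1
  refine ⟨j, ?_, ?_, ?_⟩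
  · have h3 : (i : X.B) - i' = j := hj
    rw [← h3]
    ring
  · rw [sub_eq_add_neg, ← hu]
    ring
  · rw [sub_eq_add_neg, ← hv]
    ring

theorem del_zero (r : X.B) : del r (0 : PX X) = 0 := by
  apply Subtype.ext
  show r * L X 0 - L X (X.res r * 0) = 0
  simp

theorem J_le_Q (i : ℕ) (hi : i ≤ D.c) : D.J ≤ D.Q i := by
  induction i with
  | zero => exact D.Q_zero.symm.le
  | succ i ih => exact (ih (by omega)).trans (D.Q_le i (by omega))

/-! ### the steps of the filtration -/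

variable (m : ℕ)

/-- the sequences with `a j = 0` for `j ≥ l` -/
noncomputable def Lv (l : ℕ) : Submodule X.B (lev D m) where
  carrier := {a | ∀ j, l ≤ j → (a : W D) j = 0}
  add_mem' := by
    intro a b ha hb j hj
    have h1 : ((a + b : lev D m) : W D) j = (a : W D) j + (b : W D) j := rfl
    rw [h1, ha j hj, hb j hj, add_zero]
  zero_mem' := fun j _ => rfl
  smul_mem' := by
    intro r a ha j hj
    have h1 : ((r • a : lev D m) : W D) j = (r • (a : W D)) j := rfl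
    rw [h1, smul_apply, ha j hj, ha (j + 1) (by omega), map_zero, del_zero, smul_zero, mk_zero,
      add_zero]

/-- the sequences with `a j = 0` for `j > l` and `a l` the class of `(i, u, v)` with `i ∈ Q n` -/
noncomputable def Cc (l n : ℕ) : Submodule X.B (lev D m) where
  carrier := {a | (∀ j, l < j → (a : W D) j = 0) ∧
    ∃ (i : IC X) (u v : PX X), (i : X.B) ∈ D.Q n ∧ (a : W D) l = mk D i u v}
  add_mem' := by
    rintro a b ⟨ha, i, u, v, hi, hl⟩ ⟨hb, i', u', v', hi', hl'⟩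
    refine ⟨fun j hj => ?_, i + i', u + u', v + v', (D.Q n).add_mem hi hi', ?_⟩
    · have h1 : ((a + b : lev D m) : W D) j = (a : W D) j + (b : W D) j := rfl
      rw [h1, ha j hj, hb j hj, add_zero]
    · have h1 : ((a + b : lev D m) : W D) l = (a : W D) l + (b : W D) l := rfl
      rw [h1, hl, hl', add_mk]
  zero_mem' := ⟨fun j _ => rfl, 0, 0, 0, (D.Q n).zero_mem, rfl⟩
  smul_mem' := by
    rintro r a ⟨ha, i, u, v, hi, hl⟩
    refine ⟨fun j hj => ?_, r • i, X.res r * u, X.res r * v, (D.Q n).mul_mem_left r hi, ?_⟩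
    · have h1 : ((r • a : lev D m) : W D) j = (r • (a : W D)) j := rfl
      rw [h1, smul_apply, ha j hj, ha (j + 1) (by omega), map_zero, del_zero, smul_zero, mk_zero,
        add_zero]
    · have h1 : ((r • a : lev D m) : W D) l = (r • (a : W D)) l := rfl
      rw [h1, smul_apply, ha (l + 1) (by omega), map_zero, del_zero, mk_zero, add_zero, hl,
        smul_mk]

variable {m}

/-- the sequence with `g` at `l` and `g'` at `l - 1` -/
noncomputable def two {l : ℕ} (hl : l < m) (g g' : G D) : lev D m :=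
  ⟨fun j => if j = l then g else if j + 1 = l then g' else 0, by
    intro j hj
    have h1 : j ≠ l := by omega
    have h2 : j + 1 ≠ l := by omega
    show (if j = l then g else if j + 1 = l then g' else 0) = 0
    rw [if_neg h1, if_neg h2]⟩

theorem two_apply {l : ℕ} (hl : l < m) (g g' : G D) (j : ℕ) :
    (two D hl g g' : W D) j = if j = l then g else if j + 1 = l then g' else 0 := rfl

theorem two_self {l : ℕ} (hl : l < m) (g g' : G D) : (two D hl g g' : W D) l = g := by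
  rw [two_apply, if_pos rfl]

theorem two_gt {l : ℕ} (hl : l < m) (g g' : G D) {j : ℕ} (hj : l < j) :
    (two D hl g g' : W D) j = 0 := by
  rw [two_apply, if_neg (by omega), if_neg (by omega)]

theorem two_mem_M0 {l : ℕ} (hl : l < m) {g : G D} (hg : g ∈ G₀ D) :
    two D hl g 0 ∈ M0 D m := by
  intro j
  rw [two_apply]
  split_ifs
  · exact hg
  · exact (G₀ D).zero_mem
  · exact (G₀ D).zero_mem

theorem two_mem_M1 {l : ℕ} (hl : l < m) {g : G D} (hg : g ∈ G₁ D) :
    two D hl g (-mk D (sig (pi D g)) 0 0) ∈ M1 D m := by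
  intro j
  rw [two_apply, two_apply]
  have hneg : pi D (-mk D (sig (pi D g)) 0 0) = 0 := by
    rw [map_neg, pi_mk, mul_zero, sub_zero, neg_zero]
  by_cases h1 : j = l
  · have h2 : j + 1 ≠ l := by omega
    have h3 : j + 1 + 1 ≠ l := by omega
    rw [if_pos h1, if_neg h2, if_neg h3, map_zero, sig_zero, mk_zero, add_zero]
    exact hg
  · by_cases h2 : j + 1 = l
    · rw [if_neg h1, if_pos h2, if_pos h2, neg_add_cancel]
      exact (G₁ D).zero_mem
    · rw [if_neg h1, if_neg h2, if_neg h2]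
      by_cases h3 : j + 1 + 1 = l
      · rw [if_pos h3, hneg, sig_zero, mk_zero, add_zero]
        exact (G₁ D).zero_mem
      · rw [if_neg h3, map_zero, sig_zero, mk_zero, add_zero]
        exact (G₁ D).zero_mem

/-- the top entry of a section over `U₁` -/
theorem top_mem_G₁ {l : ℕ} {a : lev D m} (ha : ∀ j, l < j → (a : W D) j = 0)
    (h : a ∈ M1 D m) : (a : W D) l ∈ G₁ D := by
  have h1 := h l
  rw [ha (l + 1) (by omega), map_zero, sig_zero, mk_zero, add_zero] at h1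
  exact h1

theorem coeff_T_mul' (f : k[T;T⁻¹]) (b : ℤ) :
    ((T 1 : k[T;T⁻¹]) * f).coeff b = f.coeff (b - 1) := by
  have h : b = 1 + (b - 1) := by ring
  conv_lhs => rw [h]
  exact (AddMonoidAlgebra.coeff_single_mul_add f (1 : k) 1 (b - 1)).trans (one_mul _)

theorem T_mul_reg0 {f : PX X} (hf : f ∈ Reg0 k) : tt X * f ∈ Reg0 k := by
  intro i hi
  have h := coeff_T_mul' f i
  exact h.trans (hf (i - 1) (by omega))

theorem T_mul_regInf {d : ℤ} {f : PX X} (hf : f ∈ RegInf k d) : tt X * f ∈ RegInf k (d + 1) := by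
  intro i hi
  have h := coeff_T_mul' f i
  exact h.trans (hf (i - 1) (by omega))

theorem smul_top {l : ℕ} (r : X.B) {a : lev D m} (ha : ∀ j, l < j → (a : W D) j = 0) :
    ((r • a : lev D m) : W D) l = r • (a : W D) l := by
  have h1 : ((r • a : lev D m) : W D) l = (r • (a : W D)) l := rfl
  rw [h1, smul_apply, ha (l + 1) (by omega), map_zero, del_zero, mk_zero, add_zero]

theorem smul_gt {l : ℕ} (r : X.B) {a : lev D m} (ha : ∀ j, l < j → (a : W D) j = 0) (j : ℕ)
    (hj : l < j) : ((r • a : lev D m) : W D) j = 0 := by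
  have h1 : ((r • a : lev D m) : W D) j = (r • (a : W D)) j := rfl
  rw [h1, smul_apply, ha j hj, ha (j + 1) (by omega), map_zero, del_zero, smul_zero, mk_zero,
    add_zero]

/-- the layer `S²` -/
theorem layer_zero {l : ℕ} (hl : l < m) :
    IsLayer (E D m) (-1) (Lv D m l) (Cc D m l 0) := by
  refine isLayer_of_rel (r := 2) (fun (a : lev D m) f => (∀ j, l < j → (a : W D) j = 0) ∧
    ∃ (j : D.J) (i : IC X) (u v : PX X),
    (i : X.B) = j ∧ (a : W D) l = mk D i u v ∧ f = ![u + D.lam j, v + tt X * D.lam j])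
    ?_ ?_ ?_ ?_ ?_ ?_ ?_ ?_ ?_ ?_
  · rintro a ⟨ha, i, u, v, hi, h⟩
    rw [D.Q_zero] at hi
    exact ⟨_, ha, ⟨i, hi⟩, i, u, v, rfl, h, rfl⟩
  · intro (a : lev D m) (b : lev D m)
    rintro f g ⟨ha, j, i, u, v, hi, h, rfl⟩ ⟨hb, j', i', u', v', hi', h', rfl⟩
    refine ⟨fun n hn => ?_, j + j', i + i', u + u', v + v', ?_, ?_, ?_⟩
    · show (a : W D) n + (b : W D) n = 0
      rw [ha n hn, hb n hn, add_zero]
    · show (i : X.B) + i' = j + j'
      rw [hi, hi']
    · show (a : W D) l + (b : W D) l = _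
      rw [h, h', add_mk]
    · funext n
      fin_cases n
      · show u + D.lam j + (u' + D.lam j') = u + u' + D.lam (j + j')
        rw [map_add]
        ring
      · show v + tt X * D.lam j + (v' + tt X * D.lam j') = v + v' + tt X * D.lam (j + j')
        rw [map_add]
        ring
  · intro b (a : lev D m)
    rintro f ⟨ha, j, i, u, v, hi, h, rfl⟩
    refine ⟨smul_gt D b ha, b • j, b • i, X.res b * u, X.res b * v, ?_, ?_, ?_⟩
    · show b * (i : X.B) = b * j
      rw [hi]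
    · have h1 := smul_top D b ha
      rw [h, smul_mk] at h1
      exact h1
    · funext n
      fin_cases n
      · show X.res b * (u + D.lam j) = X.res b * u + D.lam (b • j)
        rw [D.lam_smul]
        ring
      · show X.res b * (v + tt X * D.lam j) = X.res b * v + tt X * D.lam (b • j)
        rw [D.lam_smul]
        ring
  · rintro f ⟨-, j, i, u, v, hi, h, rfl⟩
    have h0 : mk D i u v = 0 := h.symm
    obtain ⟨j', hj, hu, hv⟩ := (mk_eq_zero D).1 h0
    have hjj : j' = j := Subtype.ext (hj.symm.trans hi)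
    subst hjj
    funext n
    fin_cases n
    · show u + D.lam j' = 0
      rw [hu, neg_add_cancel]
    · show v + tt X * D.lam j' = 0
      rw [hv, neg_add_cancel]
  · rintro a ⟨ha, -⟩
    constructor
    · rintro ⟨-, j, i, u, v, hi, h, hf⟩ n hn
      rcases Nat.eq_or_lt_of_le hn with h1 | h1
      · subst h1
        rw [h, mk_eq_zero]
        refine ⟨j, hi, ?_, ?_⟩
        · exact (neg_eq_of_add_eq_zero_left (congrFun hf 0).symm).symm
        · exact (neg_eq_of_add_eq_zero_left (congrFun hf 1).symm).symm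
      · exact ha n h1
    · intro h
      refine ⟨ha, 0, 0, 0, 0, rfl, ?_, ?_⟩
      · rw [h l le_rfl, mk_zero]
      · funext n
        fin_cases n
        · show (0 : k[T;T⁻¹]) = 0 + D.lam 0
          rw [map_zero, add_zero]
        · show (0 : k[T;T⁻¹]) = 0 + tt X * D.lam 0
          rw [map_zero, mul_zero, add_zero]
  · intro f
    refine ⟨two D hl (mk D 0 (f 0) (f 1)) 0, ⟨fun j hj => two_gt D hl _ _ hj, 0, f 0, f 1,
      (D.Q 0).zero_mem, two_self D hl _ _⟩, fun j hj => two_gt D hl _ _ hj, 0, 0, f 0, f 1, rfl,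
      two_self D hl _ _, ?_⟩
    funext n
    fin_cases n
    · show f 0 = f 0 + D.lam 0
      rw [map_zero, add_zero]
    · show f 1 = f 1 + tt X * D.lam 0
      rw [map_zero, mul_zero, add_zero]
  · rintro a - ha f ⟨-, j, i, u, v, hi, h, rfl⟩ n
    obtain ⟨i', u', v', hi', hu', hv', h'⟩ := ha l
    rw [h] at h'
    obtain ⟨j', hj', hu, hv⟩ := mk_eq_mk' D h'
    have h1 : (i' : X.B) = j - j' := by
      rw [← hi, hj']
      ring
    have h2 : D.lam (j - j') ∈ Reg0 k := D.lam₀ _ (by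
      show (j : X.B) - j' ∈ X.B₀
      rw [← h1]
      exact hi')
    fin_cases n
    · show u + D.lam j ∈ Reg0 k
      have h3 : u + D.lam j = u' + D.lam (j - j') := by
        rw [hu, map_sub]
        ring
      rw [h3]
      exact reg0_add hu' h2
    · show v + tt X * D.lam j ∈ Reg0 k
      have h3 : v + tt X * D.lam j = v' + tt X * D.lam (j - j') := by
        rw [hv, map_sub]
        ring
      rw [h3]
      exact reg0_add hv' (T_mul_reg0 h2)
  · intro f hf
    refine ⟨two D hl (mk D 0 (f 0) (f 1)) 0, ⟨fun j hj => two_gt D hl _ _ hj, 0, f 0, f 1,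
      (D.Q 0).zero_mem, two_self D hl _ _⟩,
      two_mem_M0 D hl ⟨0, f 0, f 1, X.B₀.zero_mem, hf 0, hf 1, rfl⟩,
      fun j hj => two_gt D hl _ _ hj, 0, 0, f 0, f 1, rfl, two_self D hl _ _, ?_⟩
    funext n
    fin_cases n
    · show f 0 = f 0 + D.lam 0
      rw [map_zero, add_zero]
    · show f 1 = f 1 + tt X * D.lam 0
      rw [map_zero, mul_zero, add_zero]
  · rintro a ⟨ha0, -⟩ ha f ⟨-, j, i, u, v, hi, h, rfl⟩ n
    obtain ⟨i', u', v', hi', hu', hv', h'⟩ := top_mem_G₁ D ha0 ha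
    rw [h] at h'
    obtain ⟨j', hj', hu, hv⟩ := mk_eq_mk' D h'
    have h1 : (i' : X.B) = j - j' := by
      rw [← hi, hj']
      ring
    have h2 : D.lam (j - j') ∈ RegInf k (-2) := D.lam₁ _ (by
      show (j : X.B) - j' ∈ X.B₁
      rw [← h1]
      exact hi')
    fin_cases n
    · show u + D.lam j ∈ RegInf k (-1)
      have h3 : u + D.lam j = u' + D.lam (j - j') := by
        rw [hu, map_sub]
        ring
      rw [h3]
      exact regInf_add hu' (regInf_mono (by norm_num) h2)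
    · show v + tt X * D.lam j ∈ RegInf k (-1)
      have h3 : v + tt X * D.lam j = v' + tt X * D.lam (j - j') := by
        rw [hv, map_sub]
        ring
      rw [h3]
      exact regInf_add hv' (T_mul_regInf h2)
  · intro f hf
    refine ⟨two D hl (mk D 0 (f 0) (f 1)) _, ⟨fun j hj => two_gt D hl _ _ hj, 0, f 0, f 1,
      (D.Q 0).zero_mem, two_self D hl _ _⟩,
      two_mem_M1 D hl ⟨0, f 0, f 1, X.B₁.zero_mem, hf 0, hf 1, rfl⟩,
      fun j hj => two_gt D hl _ _ hj, 0, 0, f 0, f 1, rfl, two_self D hl _ _, ?_⟩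
    funext n
    fin_cases n
    · show f 0 = f 0 + D.lam 0
      rw [map_zero, add_zero]
    · show f 1 = f 1 + tt X * D.lam 0
      rw [map_zero, mul_zero, add_zero]

/-- the layers coming from the chain of ideals -/
theorem layer_succ {l n : ℕ} (hl : l < m) (hn : n < D.c) :
    IsLayer (E D m) (-1) (Cc D m l n) (Cc D m l (n + 1)) := by
  obtain ⟨r, θ, hsm, hsurj, hker, h0, h1⟩ := D.Q_layer n hn
  have hJn : D.J ≤ D.Q n := J_le_Q D n hn.le
  have hle := D.Q_le n hn
  have hIC : D.Q (n + 1) ≤ IC X := by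
    have h2 : ∀ t, n + 1 + t ≤ D.c → D.Q (n + 1) ≤ D.Q (n + 1 + t) := by
      intro t
      induction t with
      | zero => intro _; exact le_rfl
      | succ t ih => intro ht; exact (ih (by omega)).trans (D.Q_le _ (by omega))
    have h3 := h2 (D.c - (n + 1)) (by omega)
    have h4 : n + 1 + (D.c - (n + 1)) = D.c := by omega
    rw [h4, D.Q_last] at h3
    exact h3
  have hθJ : ∀ (i i' : X.B) (hi : i ∈ D.Q (n + 1)) (hi' : i' ∈ D.Q (n + 1)) (j : D.J),
      i = i' + j → θ ⟨i, hi⟩ = θ ⟨i', hi'⟩ := by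
    intro i i' hi hi' j h
    rw [← sub_eq_zero, ← map_sub, hker]
    show i - i' ∈ D.Q n
    have h5 : i - i' = j := by rw [h]; ring
    rw [h5]
    exact hJn j.2
  refine isLayer_of_rel (r := r) (fun (a : lev D m) f => (∀ j, l < j → (a : W D) j = 0) ∧
    ∃ (i : IC X) (hi : (i : X.B) ∈ D.Q (n + 1)) (u v : PX X),
    (a : W D) l = mk D i u v ∧ f = θ ⟨i, hi⟩)
    ?_ ?_ ?_ ?_ ?_ ?_ ?_ ?_ ?_ ?_
  · rintro a ⟨ha, i, u, v, hi, h⟩
    exact ⟨_, ha, i, hi, u, v, h, rfl⟩
  · intro (a : lev D m) (b : lev D m)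
    rintro f g ⟨ha, i, hi, u, v, h, rfl⟩ ⟨hb, i', hi', u', v', h', rfl⟩
    refine ⟨fun n hn => ?_, i + i', (D.Q (n + 1)).add_mem hi hi', u + u', v + v', ?_, ?_⟩
    · show (a : W D) n + (b : W D) n = 0
      rw [ha n hn, hb n hn, add_zero]
    · show (a : W D) l + (b : W D) l = _
      rw [h, h', add_mk]
    · rw [← map_add]
      rfl
  · intro b (a : lev D m)
    rintro f ⟨ha, i, hi, u, v, h, rfl⟩
    refine ⟨smul_gt D b ha, b • i, (D.Q (n + 1)).mul_mem_left b hi, X.res b * u, X.res b * v,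
      ?_, ?_⟩
    · have h1 := smul_top D b ha
      rw [h, smul_mk] at h1
      exact h1
    · funext t
      rw [← hsm]
      rfl
  · rintro f ⟨-, i, hi, u, v, h, rfl⟩
    have h2 : mk D i u v = 0 := h.symm
    obtain ⟨j', hj, -, -⟩ := (mk_eq_zero D).1 h2
    rw [hker]
    show (i : X.B) ∈ D.Q n
    rw [hj]
    exact hJn j'.2
  · rintro a ⟨ha, -⟩
    constructor
    · rintro ⟨-, i, hi, u, v, h, hf⟩
      refine ⟨ha, i, u, v, ?_, h⟩
      exact (hker ⟨i, hi⟩).1 hf.symm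
    · rintro ⟨-, i, u, v, hi, h⟩
      exact ⟨ha, i, hle hi, u, v, h, ((hker ⟨i, hle hi⟩).2 hi).symm⟩
  · intro f
    obtain ⟨p, hp⟩ := hsurj f
    exact ⟨two D hl (mk D ⟨p, hIC p.2⟩ 0 0) 0, ⟨fun j hj => two_gt D hl _ _ hj, ⟨p, hIC p.2⟩, 0, 0,
      p.2, two_self D hl _ _⟩, fun j hj => two_gt D hl _ _ hj, ⟨p, hIC p.2⟩, p.2, 0, 0,
      two_self D hl _ _, hp.symm⟩
  · rintro a - ha f ⟨-, i, hi, u, v, h, rfl⟩
    obtain ⟨i', u', v', hi', -, -, h'⟩ := ha l
    rw [h] at h'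
    obtain ⟨j', hj', -, -⟩ := mk_eq_mk' D h'
    have hi'' : (i' : X.B) ∈ D.Q (n + 1) := by
      have h6 : (i' : X.B) = i - j' := by rw [hj']; ring
      rw [h6]
      exact (D.Q (n + 1)).sub_mem hi (hle (hJn j'.2))
    rw [hθJ i i' hi hi'' j' hj']
    exact (h0 _).1 ⟨⟨i', hi''⟩, hi', rfl⟩
  · intro f hf
    obtain ⟨p, hp0, hp⟩ := (h0 f).2 hf
    exact ⟨two D hl (mk D ⟨p, hIC p.2⟩ 0 0) 0, ⟨fun j hj => two_gt D hl _ _ hj, ⟨p, hIC p.2⟩, 0, 0,
      p.2, two_self D hl _ _⟩,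
      two_mem_M0 D hl ⟨⟨p, hIC p.2⟩, 0, 0, hp0, fun i _ => rfl, fun i _ => rfl, rfl⟩,
      fun j hj => two_gt D hl _ _ hj, ⟨p, hIC p.2⟩, p.2, 0, 0,
      two_self D hl _ _, hp.symm⟩
  · rintro a ⟨ha0, -⟩ ha f ⟨-, i, hi, u, v, h, rfl⟩
    obtain ⟨i', u', v', hi', -, -, h'⟩ := top_mem_G₁ D ha0 ha
    rw [h] at h'
    obtain ⟨j', hj', -, -⟩ := mk_eq_mk' D h'
    have hi'' : (i' : X.B) ∈ D.Q (n + 1) := by
      have h6 : (i' : X.B) = i - j' := by rw [hj']; ring
      rw [h6]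
      exact (D.Q (n + 1)).sub_mem hi (hle (hJn j'.2))
    rw [hθJ i i' hi hi'' j' hj']
    exact (h1 _).1 ⟨⟨i', hi''⟩, hi', rfl⟩
  · intro f hf
    obtain ⟨p, hp0, hp⟩ := (h1 f).2 hf
    exact ⟨two D hl (mk D ⟨p, hIC p.2⟩ 0 0) _, ⟨fun j hj => two_gt D hl _ _ hj, ⟨p, hIC p.2⟩, 0, 0,
      p.2, two_self D hl _ _⟩,
      two_mem_M1 D hl ⟨⟨p, hIC p.2⟩, 0, 0, hp0, fun i _ => rfl, fun i _ => rfl, rfl⟩,
      fun j hj => two_gt D hl _ _ hj, ⟨p, hIC p.2⟩, p.2, 0, 0,
      two_self D hl _ _, hp.symm⟩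

theorem filt_level {l : ℕ} (hl : l < m) (n : ℕ) (hn : n ≤ D.c) :
    Filt (E D m) (-1) (Lv D m l) (Cc D m l n) (n + 1) := by
  induction n with
  | zero =>
    refine Filt.step (Filt.refl _) ?_ (layer_zero D hl)
    intro a ha
    refine ⟨fun j hj => ha j hj.le, 0, 0, 0, (D.Q 0).zero_mem, ?_⟩
    rw [mk_zero]
    exact ha l le_rfl
  | succ n ih =>
    refine Filt.step (ih (by omega)) ?_ (layer_succ D hl (by omega))
    rintro a ⟨ha, i, u, v, hi, h⟩
    exact ⟨ha, i, u, v, D.Q_le n (by omega) hi, h⟩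

theorem Cc_last (l : ℕ) : Cc D m l D.c = Lv D m (l + 1) := by
  apply le_antisymm
  · rintro a ⟨ha, -⟩ j hj
    exact ha j (by omega)
  · intro a ha
    obtain ⟨i, u, v, h⟩ := exists_mk D ((a : W D) l)
    refine ⟨fun j hj => ha j (by omega), i, u, v, ?_, h⟩
    rw [D.Q_last]
    exact i.2

theorem filt_Lv (l : ℕ) (hl : l ≤ m) : ∃ n, Filt (E D m) (-1) (Lv D m 0) (Lv D m l) n := by
  induction l with
  | zero => exact ⟨0, Filt.refl _⟩
  | succ l ih =>
    obtain ⟨n, hn⟩ := ih (by omega)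
    have h := filt_level D (m := m) (l := l) (by omega) D.c le_rfl
    rw [Cc_last] at h
    exact ⟨_, hn.trans h⟩

theorem chain (m : ℕ) : ∃ n : ℕ, Loewy (E D m) (-1) n := by
  obtain ⟨n, hn⟩ := filt_Lv D (m := m) m le_rfl
  have h0 : Lv D m 0 = ⊥ := by
    rw [eq_bot_iff]
    intro a ha
    exact (Submodule.mem_bot _).2 (Subtype.ext (funext fun j => ha j (Nat.zero_le j)))
  have h1 : Lv D m m = ⊤ := by
    rw [eq_top_iff]
    intro a _ j hj
    exact a.2 j hj
  rw [h0, h1] at hn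
  exact ⟨n, Filt.loewy hn⟩

end Pool.Agent.H62DW
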