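import Pool.Agent.H62DW.Key
import Pool.Agent.H62DW.Chain

/-!
# Conclusion of step 2
-/

set_option autoImplicit false

open LaurentPolynomial Pool.Agent.DWC

universe u

namespace Pool.Agent.H62DW

variable {k : Type u} [Field k] {X : Nbhd k} (D : Dat X)

theorem shift_lev {m i : ℕ} (a : lev D m) : shift D i a ∈ lev D m := fun l hl =>
  a.2 (l + i) (by omega)

/-- `s ^ i` on `E_m` -/
noncomputable def sh (m i : ℕ) : lev D m →ₗ[X.B] lev D m :=
  ((shift D i).comp (lev D m).subtype).codRestrict (lev D m) fun a => shift_lev D a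

theorem sh_apply {m i : ℕ} (a : lev D m) (l : ℕ) : (sh D m i a : W D) l = (a : W D) (l + i) := rfl

theorem sh_M0 {m i : ℕ} {a : lev D m} (ha : a ∈ M0 D m) : sh D m i a ∈ M0 D m := fun l =>
  ha (l + i)

theorem sh_M1 {m i : ℕ} {a : lev D m} (ha : a ∈ M1 D m) : sh D m i a ∈ M1 D m := by
  intro l
  rw [sh_apply, sh_apply, show l + 1 + i = l + i + 1 by omega]
  exact ha (l + i)

/-- move the entries `i` steps to the right -/
noncomputable def right (i : ℕ) (a : W D) : W D := fun l => if i ≤ l then a (l - i) else 0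

theorem right_apply (i : ℕ) (a : W D) (l : ℕ) :
    right D i a l = if i ≤ l then a (l - i) else 0 := rfl

theorem descend (hlam : ∃ j, D.lam j ≠ 0) (m N : ℕ) (P : ℕ → Submodule X.B (lev D m))
    (hP : P N = ⊤) (hlay : ∀ j < N, IsLayer (E D m) (-1) (P j) (P (j + 1))) (i : ℕ) (hi : i ≤ N)
    (a : lev D m) (ha : ∀ l, m ≤ l + i → (a : W D) l = 0) : a ∈ P (N - i) := by
  induction i generalizing a with
  | zero =>
    rw [Nat.sub_zero, hP]
    exact Submodule.mem_top
  | succ i ih =>
    obtain ⟨q, hq⟩ : ∃ q, N = q + 1 + i := ⟨N - i - 1, by omega⟩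
    have hq1 : N - i = q + 1 := by omega
    have hq2 : N - (i + 1) = q := by omega
    obtain ⟨r, θ, hlin, -, hker, h0, h1⟩ : ∃ (r : ℕ) (θ : P (q + 1) →+ (Fin r → k[T;T⁻¹])),
        (∀ (b : X.B) (p : P (q + 1)) (i : Fin r), θ (b • p) i = X.res b * θ p i) ∧
        Function.Surjective θ ∧ (∀ p : P (q + 1), θ p = 0 ↔ (p : lev D m) ∈ P q) ∧
        (∀ f : Fin r → k[T;T⁻¹], (∃ p : P (q + 1), (p : lev D m) ∈ M0 D m ∧ θ p = f) ↔
          ∀ i, f i ∈ Reg0 k) ∧
        (∀ f : Fin r → k[T;T⁻¹], (∃ p : P (q + 1), (p : lev D m) ∈ M1 D m ∧ θ p = f) ↔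
          ∀ i, f i ∈ RegInf k (-1)) := hlay q (by omega)
    have hmem : ∀ b : lev D m, sh D m i b ∈ P (q + 1) := by
      intro b
      have h := ih (by omega) (sh D m i b) (fun l hl => by
        rw [sh_apply]
        exact b.2 (l + i) hl)
      rwa [hq1] at h
    -- the components
    have hkill : ∀ (c : Fin r) (b : lev D m), (∀ l, m ≤ l + 1 → (b : W D) l = 0) →
        θ ⟨sh D m i b, hmem b⟩ c = 0 := by
      intro c b hb
      let F : lev D m →+ k[T;T⁻¹] :=
        { toFun := fun b => θ ⟨sh D m i b, hmem b⟩ c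
          map_zero' := by
            have : (⟨sh D m i 0, hmem 0⟩ : P (q + 1)) = 0 := Subtype.ext (map_zero (sh D m i))
            rw [this, map_zero]
            rfl
          map_add' := fun b b' => by
            have : (⟨sh D m i (b + b'), hmem (b + b')⟩ : P (q + 1)) =
                ⟨sh D m i b, hmem b⟩ + ⟨sh D m i b', hmem b'⟩ :=
              Subtype.ext (map_add (sh D m i) b b')
            rw [this, map_add]
            rfl }
      refine key D hlam m F (fun r' b' => ?_) (fun b' hb' => ?_) (fun b' hb' => ?_) b hb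
      · show θ ⟨sh D m i (r' • b'), hmem (r' • b')⟩ c = _
        have : (⟨sh D m i (r' • b'), hmem (r' • b')⟩ : P (q + 1)) =
            r' • ⟨sh D m i b', hmem b'⟩ := Subtype.ext (map_smul (sh D m i) r' b')
        rw [this]
        exact hlin r' _ c
      · have h3 : sh D m i b' ∈ M0 D m := sh_M0 D hb'
        have h4 := (h0 (θ ⟨sh D m i b', hmem b'⟩)).1 ⟨⟨sh D m i b', hmem b'⟩, h3, rfl⟩
        exact h4 c
      · have h3 : sh D m i b' ∈ M1 D m := sh_M1 D hb'
        have h4 := (h1 (θ ⟨sh D m i b', hmem b'⟩)).1 ⟨⟨sh D m i b', hmem b'⟩, h3, rfl⟩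
        exact h4 c
    -- move `a` to the right
    have hb : right D i a ∈ lev D m := by
      intro l hl
      rw [right_apply]
      split_ifs with h
      · exact ha (l - i) (by omega)
      · rfl
    have h2 : ∀ l, m ≤ l + 1 → ((⟨right D i a, hb⟩ : lev D m) : W D) l = 0 := by
      intro l hl
      show right D i a l = 0
      rw [right_apply]
      split_ifs with h
      · exact ha (l - i) (by omega)
      · rfl
    have h3 : sh D m i ⟨right D i a, hb⟩ = a := by
      apply Subtype.ext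
      refine W_ext D fun l => ?_
      rw [sh_apply]
      show right D i a (l + i) = (a : W D) l
      rw [right_apply, if_pos (by omega), Nat.add_sub_cancel]
    have h4 : θ ⟨sh D m i ⟨right D i a, hb⟩, hmem _⟩ = 0 := by
      funext c
      exact hkill c _ h2
    have h5 := (hker _).1 h4
    rw [hq2]
    have h6 : sh D m i ⟨right D i a, hb⟩ ∈ P q := h5
    rwa [h3] at h6

theorem concl (N : ℕ) (hN : ∀ E : Sh X, (∃ n : ℕ, Loewy E (-1) n) → Loewy E (-1) N) (j : D.J) :
    D.lam j = 0 := by
  by_contra hj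
  obtain ⟨P, hP0, hPN, hlay⟩ := hN (E D (N + 1)) (chain D (N + 1))
  have h := descend D ⟨j, hj⟩ (N + 1) N P hPN (fun i hi => (hlay i hi).2) N le_rfl
  rw [Nat.sub_self, hP0] at h
  let g : G D := mk D 0 1 0
  let a : W D := fun l => if l = 0 then g else 0
  have ha : a ∈ lev D (N + 1) := by
    intro l hl
    show (if l = 0 then g else 0) = 0
    rw [if_neg (by omega)]
  have h1 := h ⟨a, ha⟩ (fun l hl => by
    show (if l = 0 then g else 0) = 0
    rw [if_neg (by omega)])
  have h2 : (⟨a, ha⟩ : lev D (N + 1)) = 0 := (Submodule.mem_bot X.B).1 h1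
  have h3 : g = 0 := congrFun (congrArg Subtype.val h2) 0
  have h4 : mk D 0 1 0 = mk D 0 0 0 := h3
  obtain ⟨j', h5, h6, -⟩ := (mk_eq_mk D).1 h4
  have h7 : j' = 0 := by
    apply Subtype.ext
    rw [h5]
    show (0 : X.B) - 0 = 0
    exact sub_zero 0
  rw [h7, map_zero, sub_zero, neg_zero] at h6
  exact one_ne_zero h6

end Pool.Agent.H62DW
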