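import Pool.Agent.DWC.Defs

/-!
# Step 2: the extensions `E_m` of a map `J → 𝒪_C(-2)`
-/

set_option autoImplicit false

open LaurentPolynomial Pool.Agent.DWC

universe u

namespace Pool.Agent.H62DW

variable {k : Type u} [Field k]

/-- `Q₂ / Q₁ ≅ 𝒪_C(d)^r` for ideal sheaves -/
def ILayer (X : Nbhd k) (d : ℤ) (Q₁ Q₂ : Ideal X.B) : Prop :=
  ∃ (r : ℕ) (θ : Q₂ →+ (Fin r → k[T;T⁻¹])),
    (∀ (b : X.B) (p : Q₂) (i : Fin r), θ (b • p) i = X.res b * θ p i) ∧
    Function.Surjective θ ∧ (∀ p : Q₂, θ p = 0 ↔ (p : X.B) ∈ Q₁) ∧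
    (∀ f : Fin r → k[T;T⁻¹], (∃ p : Q₂, (p : X.B) ∈ X.B₀ ∧ θ p = f) ↔ ∀ i, f i ∈ Reg0 k) ∧
    (∀ f : Fin r → k[T;T⁻¹], (∃ p : Q₂, (p : X.B) ∈ X.B₁ ∧ θ p = f) ↔ ∀ i, f i ∈ RegInf k d)

/-- the ideal of `C` -/
noncomputable def IC (X : Nbhd k) : Ideal X.B := RingHom.ker X.res

theorem mem_IC {X : Nbhd k} {b : X.B} : b ∈ IC X ↔ X.res b = 0 := Iff.rfl

/-- the data of step 2 -/
structure Dat (X : Nbhd k) where
  J : Ideal X.B
  J_le : J ≤ IC X
  c : ℕ
  Q : ℕ → Ideal X.B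
  Q_zero : Q 0 = J
  Q_last : Q c = IC X
  Q_le : ∀ i < c, Q i ≤ Q (i + 1)
  Q_layer : ∀ i < c, ILayer X (-1) (Q i) (Q (i + 1))
  loc₀ : ∀ b ∈ IC X, ∃ n : ℕ, ∃ j ∈ J, (X.x : X.B) ^ n * b + j ∈ X.B₀
  loc₁ : ∀ b ∈ IC X, ∃ n : ℕ, ∃ j ∈ J, (X.w : X.B) ^ n * b + j ∈ X.B₁
  lam : J →+ k[T;T⁻¹]
  lam_smul : ∀ (b : X.B) (j : J), lam (b • j) = X.res b * lam j
  lam₀ : ∀ j : J, (j : X.B) ∈ X.B₀ → lam j ∈ Reg0 k
  lam₁ : ∀ j : J, (j : X.B) ∈ X.B₁ → lam j ∈ RegInf k (-2)

/-! ### Laurent polynomials -/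

theorem coeff_T' (n m : ℤ) : (T n : k[T;T⁻¹]).coeff m = if n = m then 1 else 0 :=
  LaurentPolynomial.T_apply m n

theorem reg0_zero : (0 : k[T;T⁻¹]) ∈ Reg0 k := fun _ _ => rfl

theorem regInf_zero (d : ℤ) : (0 : k[T;T⁻¹]) ∈ RegInf k d := fun _ _ => rfl

theorem reg0_add {f g : k[T;T⁻¹]} (hf : f ∈ Reg0 k) (hg : g ∈ Reg0 k) : f + g ∈ Reg0 k := by
  intro i hi
  rw [AddMonoidAlgebra.coeff_add, Finsupp.add_apply, hf i hi, hg i hi, add_zero]

theorem regInf_add {d : ℤ} {f g : k[T;T⁻¹]} (hf : f ∈ RegInf k d) (hg : g ∈ RegInf k d) :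
    f + g ∈ RegInf k d := by
  intro i hi
  rw [AddMonoidAlgebra.coeff_add, Finsupp.add_apply, hf i hi, hg i hi, add_zero]

theorem reg0_neg {f : k[T;T⁻¹]} (hf : f ∈ Reg0 k) : -f ∈ Reg0 k := by
  intro i hi
  rw [AddMonoidAlgebra.coeff_neg, Finsupp.neg_apply, hf i hi, neg_zero]

theorem regInf_neg {d : ℤ} {f : k[T;T⁻¹]} (hf : f ∈ RegInf k d) : -f ∈ RegInf k d := by
  intro i hi
  rw [AddMonoidAlgebra.coeff_neg, Finsupp.neg_apply, hf i hi, neg_zero]

theorem reg0_mul {f g : k[T;T⁻¹]} (hf : f ∈ Reg0 k) (hg : g ∈ Reg0 k) : f * g ∈ Reg0 k := by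
  intro n hn
  rw [AddMonoidAlgebra.coeff_mul]
  refine Finset.sum_eq_zero fun a _ => Finset.sum_eq_zero fun b _ => ?_
  dsimp only
  split_ifs with h
  · rcases lt_or_ge a 0 with h1 | h1
    · rw [hf a h1, zero_mul]
    · rw [hg b (by omega), mul_zero]
  · rfl

theorem regInf_mul {d e : ℤ} {f g : k[T;T⁻¹]} (hf : f ∈ RegInf k d) (hg : g ∈ RegInf k e) :
    f * g ∈ RegInf k (d + e) := by
  intro n hn
  rw [AddMonoidAlgebra.coeff_mul]
  refine Finset.sum_eq_zero fun a _ => Finset.sum_eq_zero fun b _ => ?_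
  dsimp only
  split_ifs with h
  · rcases lt_or_ge d a with h1 | h1
    · rw [hf a h1, zero_mul]
    · rw [hg b (by omega), mul_zero]
  · rfl

theorem regInf_mono {d e : ℤ} (h : d ≤ e) {f : k[T;T⁻¹]} (hf : f ∈ RegInf k d) :
    f ∈ RegInf k e := fun i hi => hf i (by omega)

theorem reg0_T {n : ℤ} (hn : 0 ≤ n) : (T n : k[T;T⁻¹]) ∈ Reg0 k := by
  intro i hi
  rw [coeff_T', if_neg (by omega)]

theorem regInf_T (n : ℤ) : (T n : k[T;T⁻¹]) ∈ RegInf k n := by
  intro i hi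
  rw [coeff_T', if_neg (by omega)]

theorem coeff_T_mul (n : ℤ) (f : k[T;T⁻¹]) (i : ℤ) : (T n * f).coeff i = f.coeff (i - n) := by
  have h := AddMonoidAlgebra.coeff_single_mul_add (R := k) f 1 n (i - n)
  rw [one_mul, add_sub_cancel] at h
  exact h

/-! ### `𝒪_C` as a module over `B` -/

/-- the functions on `U₀ ∩ U₁ ∩ C` -/
abbrev PX (_ : Nbhd k) : Type u := k[T;T⁻¹]

noncomputable instance modPX (X : Nbhd k) : Module X.B k[T;T⁻¹] :=
  Module.compHom k[T;T⁻¹] (X.res : X.B →+* k[T;T⁻¹])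

theorem smul_PX {X : Nbhd k} (b : X.B) (p : PX X) : b • p = X.res b * p := rfl

/-- `T` -/
noncomputable def tt (X : Nbhd k) : PX X := (T 1 : k[T;T⁻¹])

/-! ### The lifts -/

/-- `T ↦ x` -/
noncomputable def L (X : Nbhd k) : PX X →+* X.B :=
  LaurentPolynomial.eval₂ (algebraMap k X.B) X.x

/-- `T ↦ w⁻¹` -/
noncomputable def L' (X : Nbhd k) : PX X →+* X.B :=
  LaurentPolynomial.eval₂ (algebraMap k X.B) X.w⁻¹

theorem L_C_mul_T (X : Nbhd k) (a : k) (n : ℤ) :
    L X (C a * T n) = algebraMap k X.B a * ((X.x ^ n : X.Bˣ) : X.B) := by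
  rw [L, map_mul, LaurentPolynomial.eval₂_C, LaurentPolynomial.eval₂_T]

theorem L'_C_mul_T (X : Nbhd k) (a : k) (n : ℤ) :
    L' X (C a * T n) = algebraMap k X.B a * ((X.w⁻¹ ^ n : X.Bˣ) : X.B) := by
  rw [L', map_mul, LaurentPolynomial.eval₂_C, LaurentPolynomial.eval₂_T]

theorem res_x_zpow (X : Nbhd k) (n : ℤ) : X.res ((X.x ^ n : X.Bˣ) : X.B) = T n := by
  have h : ∀ n : ℕ, X.res ((X.x ^ n : X.Bˣ) : X.B) = T n := by
    intro n
    rw [Units.val_pow_eq_pow_val, map_pow, X.res_x, LaurentPolynomial.T_pow, mul_one]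
  have hinv : ∀ n : ℕ, X.res (((X.x ^ n)⁻¹ : X.Bˣ) : X.B) = T (-n) := by
    intro n
    have h1 : X.res ((X.x ^ n : X.Bˣ) : X.B) * X.res (((X.x ^ n)⁻¹ : X.Bˣ) : X.B) = 1 := by
      rw [← map_mul, Units.mul_inv, map_one]
    rw [h n] at h1
    have h2 := congrArg (fun p => T (-(n : ℤ)) * p) h1
    simp only [← mul_assoc, ← LaurentPolynomial.T_add, neg_add_cancel, LaurentPolynomial.T_zero,
      one_mul, mul_one] at h2
    exact h2
  rcases n with n | n
  · simpa using h n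
  · rw [zpow_negSucc]
    rw [hinv (n + 1)]
    congr 1

theorem res_w_zpow (X : Nbhd k) (n : ℤ) : X.res ((X.w⁻¹ ^ n : X.Bˣ) : X.B) = T n := by
  have h : ∀ n : ℕ, X.res ((X.w ^ n : X.Bˣ) : X.B) = T (-n) := by
    intro n
    rw [Units.val_pow_eq_pow_val, map_pow, X.res_w, LaurentPolynomial.T_pow]
    congr 1
    ring
  have hinv : ∀ n : ℕ, X.res (((X.w ^ n)⁻¹ : X.Bˣ) : X.B) = T n := by
    intro n
    have h1 : X.res ((X.w ^ n : X.Bˣ) : X.B) * X.res (((X.w ^ n)⁻¹ : X.Bˣ) : X.B) = 1 := by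
      rw [← map_mul, Units.mul_inv, map_one]
    rw [h n] at h1
    have h2 := congrArg (fun p => T (n : ℤ) * p) h1
    simp only [← mul_assoc, ← LaurentPolynomial.T_add, add_neg_cancel, LaurentPolynomial.T_zero,
      one_mul, mul_one] at h2
    exact h2
  rcases n with n | n
  · rw [inv_zpow]
    have := hinv n
    simpa using this
  · rw [zpow_negSucc, inv_pow, inv_inv]
    have := h (n + 1)
    rw [this]
    congr 1

theorem res_L (X : Nbhd k) (f : PX X) : X.res (L X f) = f := by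
  induction f using LaurentPolynomial.induction_on' with
  | add p q hp hq => rw [map_add, map_add, hp, hq]
  | C_mul_T n a =>
    rw [L_C_mul_T, map_mul, res_x_zpow, AlgHom.commutes]
    rfl

theorem res_L' (X : Nbhd k) (f : PX X) : X.res (L' X f) = f := by
  induction f using LaurentPolynomial.induction_on' with
  | add p q hp hq => rw [map_add, map_add, hp, hq]
  | C_mul_T n a =>
    rw [L'_C_mul_T, map_mul, res_w_zpow, AlgHom.commutes]
    rfl

theorem sum_C_mul_T (f : k[T;T⁻¹]) : f = ∑ n ∈ f.coeff.support, C (f.coeff n) * T n := by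
  ext i
  rw [AddMonoidAlgebra.coeff_sum, Finset.sum_apply']
  simp only [← LaurentPolynomial.single_eq_C_mul_T]
  have h : ∀ n, (AddMonoidAlgebra.single n (f.coeff n) : k[T;T⁻¹]).coeff i =
      if n = i then f.coeff n else 0 := fun n => by
    rw [AddMonoidAlgebra.coeff_single, Finsupp.single_apply]
  rw [Finset.sum_congr rfl fun n _ => h n, Finset.sum_ite_eq']
  split_ifs with h1
  · rfl
  · exact Finsupp.notMem_support_iff.1 h1

theorem L_mem (X : Nbhd k) {f : PX X} (hf : f ∈ Reg0 k) : L X f ∈ X.B₀ := by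
  rw [sum_C_mul_T f, map_sum]
  refine sum_mem fun n hn => ?_
  rw [L_C_mul_T]
  refine mul_mem (X.B₀.algebraMap_mem _) ?_
  have h0 : 0 ≤ n := by
    by_contra h
    exact (Finsupp.mem_support_iff.1 hn) (hf n (by omega))
  lift n to ℕ using h0
  rw [zpow_natCast, Units.val_pow_eq_pow_val]
  exact pow_mem X.x_mem n

theorem L'_mem (X : Nbhd k) {f : PX X} (hf : f ∈ RegInf k 0) : L' X f ∈ X.B₁ := by
  rw [sum_C_mul_T f, map_sum]
  refine sum_mem fun n hn => ?_
  rw [L'_C_mul_T]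
  refine mul_mem (X.B₁.algebraMap_mem _) ?_
  have h0 : n ≤ 0 := by
    by_contra h
    exact (Finsupp.mem_support_iff.1 hn) (hf n (by omega))
  obtain ⟨m, rfl⟩ : ∃ m : ℕ, n = -m := ⟨n.natAbs, by omega⟩
  rw [inv_zpow, zpow_neg, inv_inv, zpow_natCast, Units.val_pow_eq_pow_val]
  exact pow_mem X.w_mem m

/-- `r L(f) - L(r|C f)` -/
noncomputable def del {X : Nbhd k} (r : X.B) (f : PX X) : IC X :=
  ⟨r * L X f - L X (X.res r * f), by
    rw [mem_IC, map_sub, map_mul, res_L, res_L, sub_self]⟩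

/-- `L(f) - L'(f)` -/
noncomputable def sig {X : Nbhd k} (f : PX X) : IC X :=
  ⟨L X f - L' X f, by rw [mem_IC, map_sub, res_L, res_L', sub_self]⟩

theorem del_val {X : Nbhd k} (r : X.B) (f : PX X) :
    (del r f : X.B) = r * L X f - L X (X.res r * f) := rfl

theorem sig_val {X : Nbhd k} (f : PX X) : (sig f : X.B) = L X f - L' X f := rfl

section del

variable {X : Nbhd k}

theorem del_zero_right (r : X.B) : del r (0 : PX X) = 0 := by
  apply Subtype.ext
  rw [del_val, map_zero, mul_zero, mul_zero, map_zero, sub_zero]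
  rfl

theorem del_add_right (r : X.B) (f g : PX X) : del r (f + g) = del r f + del r g := by
  apply Subtype.ext
  show (del r (f + g) : X.B) = (del r f : X.B) + (del r g : X.B)
  rw [del_val, del_val, del_val, map_add, mul_add, mul_add, map_add]
  ring

theorem del_add_left (r s : X.B) (f : PX X) : del (r + s) f = del r f + del s f := by
  apply Subtype.ext
  show (del (r + s) f : X.B) = (del r f : X.B) + (del s f : X.B)
  rw [del_val, del_val, del_val, map_add, add_mul, add_mul, map_add]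
  ring

theorem del_zero_left (f : PX X) : del (0 : X.B) f = 0 := by
  apply Subtype.ext
  rw [del_val, map_zero, zero_mul, zero_mul, map_zero, sub_zero]
  rfl

theorem del_one_left (f : PX X) : del (1 : X.B) f = 0 := by
  apply Subtype.ext
  rw [del_val, map_one, one_mul, one_mul, sub_self]
  rfl

theorem del_mul_left (r s : X.B) (f : PX X) :
    del (r * s) f = r • del s f + del r (X.res s * f) := by
  apply Subtype.ext
  show (del (r * s) f : X.B) = r * (del s f : X.B) + (del r (X.res s * f) : X.B)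
  rw [del_val, del_val, del_val, show X.res (r * s) * f = X.res r * (X.res s * f) by
    rw [map_mul, mul_assoc]]
  ring

/-- `f ∈ P` acts as `L f`: no correction -/
theorem del_L (h f : PX X) : del (L X h) f = 0 := by
  apply Subtype.ext
  rw [del_val, res_L, map_mul, sub_self]
  rfl

theorem sig_zero : sig (0 : PX X) = 0 := by
  apply Subtype.ext
  rw [sig_val, map_zero, map_zero, sub_zero]
  rfl

theorem sig_add (f g : PX X) : sig (f + g) = sig f + sig g := by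
  apply Subtype.ext
  show (sig (f + g) : X.B) = (sig f : X.B) + (sig g : X.B)
  rw [sig_val, sig_val, sig_val, map_add, map_add]
  ring

theorem sig_one : sig (1 : PX X) = 0 := by
  apply Subtype.ext
  rw [sig_val, map_one, map_one, sub_self]
  rfl

/-- `r L'(f) - L'(r|C f)` -/
noncomputable def del' (r : X.B) (f : PX X) : IC X :=
  ⟨r * L' X f - L' X (X.res r * f), by
    rw [mem_IC, map_sub, map_mul, res_L', res_L', sub_self]⟩

theorem del'_val (r : X.B) (f : PX X) :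
    (del' r f : X.B) = r * L' X f - L' X (X.res r * f) := rfl

theorem del_add_sig (r : X.B) (f : PX X) :
    del r f + sig (X.res r * f) = r • sig f + del' r f := by
  apply Subtype.ext
  show (del r f : X.B) + ((sig (X := X) (X.res r * f) : IC X) : X.B) =
    r * ((sig (X := X) f : IC X) : X.B) + (del' r f : X.B)
  rw [del_val, sig_val, sig_val, del'_val]
  ring

theorem del_mem {r : X.B} (hr : r ∈ X.B₀) {f : PX X} (hf : f ∈ Reg0 k) :
    (del r f : X.B) ∈ X.B₀ := by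
  rw [del_val]
  exact sub_mem (mul_mem hr (L_mem X hf)) (L_mem X (reg0_mul (X.res₀ r hr) hf))

theorem del'_mem {r : X.B} (hr : r ∈ X.B₁) {f : PX X} (hf : f ∈ RegInf k 0) :
    (del' r f : X.B) ∈ X.B₁ := by
  rw [del'_val]
  refine sub_mem (mul_mem hr (L'_mem X hf)) (L'_mem X ?_)
  have := regInf_mul (X.res₁ r hr) hf
  rwa [add_zero] at this

end del

/-! ### `G` -/

variable {X : Nbhd k} (D : Dat X)

/-- the relation -/
noncomputable def relMap : D.J →ₗ[X.B] (IC X × PX X × PX X) where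
  toFun j := (⟨j, D.J_le j.2⟩, -(D.lam j), -(tt X * D.lam j))
  map_add' i j := by
    refine Prod.ext ?_ (Prod.ext ?_ ?_)
    · apply Subtype.ext
      rfl
    · show -(D.lam (i + j)) = -(D.lam i) + -(D.lam j)
      rw [map_add, neg_add]
    · show -(tt X * D.lam (i + j)) = -(tt X * D.lam i) + -(tt X * D.lam j)
      rw [map_add]
      ring
  map_smul' b j := by
    refine Prod.ext ?_ (Prod.ext ?_ ?_)
    · apply Subtype.ext
      rfl
    · show -(D.lam (b • j)) = X.res b * -(D.lam j)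
      rw [D.lam_smul]
      ring
    · show -(tt X * D.lam (b • j)) = X.res b * -(tt X * D.lam j)
      rw [D.lam_smul]
      ring

/-- `G` -/
abbrev G : Type u := (IC X × PX X × PX X) ⧸ LinearMap.range (relMap D)

/-- the class of `(i, u, v)` -/
noncomputable def mk (i : IC X) (u v : PX X) : G D := Submodule.Quotient.mk (i, u, v)

theorem mk_add (i i' : IC X) (u u' v v' : PX X) :
    mk D (i + i') (u + u') (v + v') = mk D i u v + mk D i' u' v' := rfl

theorem mk_neg (i : IC X) (u v : PX X) : mk D (-i) (-u) (-v) = -mk D i u v := rfl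

theorem mk_zero : mk D 0 0 0 = 0 := rfl

theorem mk_smul (b : X.B) (i : IC X) (u v : PX X) :
    b • mk D i u v = mk D (b • i) (X.res b * u) (X.res b * v) := rfl

theorem mk_surj (g : G D) : ∃ i u v, g = mk D i u v := by
  obtain ⟨⟨i, u, v⟩, rfl⟩ := Submodule.Quotient.mk_surjective _ g
  exact ⟨i, u, v, rfl⟩

theorem mk_eq_mk {i i' : IC X} {u u' v v' : PX X} :
    mk D i u v = mk D i' u' v' ↔ ∃ j : D.J, (j : X.B) = i - i' ∧ u - u' = -(D.lam j) ∧
      v - v' = -(tt X * D.lam j) := by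
  unfold mk
  rw [Submodule.Quotient.eq]
  constructor
  · rintro ⟨j, hj⟩
    refine ⟨j, ?_, ?_, ?_⟩
    · exact congrArg (fun p : IC X × PX X × PX X => (p.1 : X.B)) hj
    · exact (congrArg (fun p : IC X × PX X × PX X => p.2.1) hj).symm
    · exact (congrArg (fun p : IC X × PX X × PX X => p.2.2) hj).symm
  · rintro ⟨j, h1, h2, h3⟩
    refine ⟨j, Prod.ext ?_ (Prod.ext ?_ ?_)⟩
    · exact Subtype.ext h1
    · exact h2.symm
    · exact h3.symm

/-- the relation `(j, 0, 0) = (0, λ j, T λ j)` -/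
theorem mk_J (j : D.J) : mk D ⟨j, D.J_le j.2⟩ 0 0 = mk D 0 (D.lam j) (tt X * D.lam j) := by
  rw [mk_eq_mk]
  refine ⟨j, ?_, ?_, ?_⟩
  · show (j : X.B) = (j : X.B) - ((0 : IC X) : X.B)
    rw [show ((0 : IC X) : X.B) = 0 from rfl, sub_zero]
  · rw [zero_sub]
  · rw [zero_sub]

/-- `π (i, u, v) = T u - v` -/
noncomputable def pi : G D →ₗ[X.B] PX X :=
  Submodule.liftQ _
    { toFun := fun p => tt X * p.2.1 - p.2.2
      map_add' := by
        intro p q
        show tt X * (p.2.1 + q.2.1) - (p.2.2 + q.2.2) = _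
        ring
      map_smul' := by
        intro b p
        show tt X * (X.res b * p.2.1) - X.res b * p.2.2 = X.res b * (tt X * p.2.1 - p.2.2)
        ring }
    (by
      rintro _ ⟨j, rfl⟩
      show tt X * (-(D.lam j)) - (-(tt X * D.lam j)) = 0
      ring)

theorem pi_mk (i : IC X) (u v : PX X) : pi D (mk D i u v) = tt X * u - v := rfl

theorem pi_smul (b : X.B) (g : G D) : pi D (b • g) = X.res b * pi D g := map_smul (pi D) b g

/-- the sections of `G` over `U₀` -/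
noncomputable def G₀ : AddSubgroup (G D) where
  carrier := {g | ∃ (i : IC X) (u v : PX X), (i : X.B) ∈ X.B₀ ∧ u ∈ Reg0 k ∧ v ∈ Reg0 k ∧
    g = mk D i u v}
  add_mem' := by
    rintro _ _ ⟨i, u, v, h1, h2, h3, rfl⟩ ⟨i', u', v', h1', h2', h3', rfl⟩
    exact ⟨i + i', u + u', v + v', add_mem h1 h1', reg0_add h2 h2', reg0_add h3 h3', rfl⟩
  zero_mem' := ⟨0, 0, 0, zero_mem _, reg0_zero, reg0_zero, rfl⟩
  neg_mem' := by
    rintro _ ⟨i, u, v, h1, h2, h3, rfl⟩
    exact ⟨-i, -u, -v, neg_mem h1, reg0_neg h2, reg0_neg h3, rfl⟩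

/-- the sections of `G` over `U₁` -/
noncomputable def G₁ : AddSubgroup (G D) where
  carrier := {g | ∃ (i : IC X) (u v : PX X), (i : X.B) ∈ X.B₁ ∧ u ∈ RegInf k (-1) ∧
    v ∈ RegInf k (-1) ∧ g = mk D i u v}
  add_mem' := by
    rintro _ _ ⟨i, u, v, h1, h2, h3, rfl⟩ ⟨i', u', v', h1', h2', h3', rfl⟩
    exact ⟨i + i', u + u', v + v', add_mem h1 h1', regInf_add h2 h2', regInf_add h3 h3', rfl⟩
  zero_mem' := ⟨0, 0, 0, zero_mem _, regInf_zero _, regInf_zero _, rfl⟩
  neg_mem' := by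
    rintro _ ⟨i, u, v, h1, h2, h3, rfl⟩
    exact ⟨-i, -u, -v, neg_mem h1, regInf_neg h2, regInf_neg h3, rfl⟩

theorem mem_G₀ {g : G D} : g ∈ G₀ D ↔ ∃ (i : IC X) (u v : PX X), (i : X.B) ∈ X.B₀ ∧
    u ∈ Reg0 k ∧ v ∈ Reg0 k ∧ g = mk D i u v := Iff.rfl

theorem mem_G₁ {g : G D} : g ∈ G₁ D ↔ ∃ (i : IC X) (u v : PX X), (i : X.B) ∈ X.B₁ ∧
    u ∈ RegInf k (-1) ∧ v ∈ RegInf k (-1) ∧ g = mk D i u v := Iff.rfl

theorem G₀_smul {r : X.B} (hr : r ∈ X.B₀) {g : G D} (hg : g ∈ G₀ D) : r • g ∈ G₀ D := by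
  obtain ⟨i, u, v, h1, h2, h3, rfl⟩ := hg
  exact ⟨r • i, X.res r * u, X.res r * v, mul_mem hr h1, reg0_mul (X.res₀ r hr) h2,
    reg0_mul (X.res₀ r hr) h3, rfl⟩

theorem G₁_smul {r : X.B} (hr : r ∈ X.B₁) {g : G D} (hg : g ∈ G₁ D) : r • g ∈ G₁ D := by
  obtain ⟨i, u, v, h1, h2, h3, rfl⟩ := hg
  refine ⟨r • i, X.res r * u, X.res r * v, mul_mem hr h1, ?_, ?_, rfl⟩
  · have := regInf_mul (X.res₁ r hr) h2
    rwa [zero_add] at this
  · have := regInf_mul (X.res₁ r hr) h3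
    rwa [zero_add] at this

theorem pi_G₀ {g : G D} (hg : g ∈ G₀ D) : pi D g ∈ Reg0 k := by
  obtain ⟨i, u, v, h1, h2, h3, rfl⟩ := hg
  rw [pi_mk, sub_eq_add_neg]
  exact reg0_add (reg0_mul (reg0_T (by omega)) h2) (reg0_neg h3)

theorem pi_G₁ {g : G D} (hg : g ∈ G₁ D) : pi D g ∈ RegInf k 0 := by
  obtain ⟨i, u, v, h1, h2, h3, rfl⟩ := hg
  rw [pi_mk, sub_eq_add_neg]
  refine regInf_add ?_ (regInf_neg (regInf_mono (by omega) h3))
  have := regInf_mul (regInf_T (k := k) 1) h2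
  rw [show (1 : ℤ) + -1 = 0 by norm_num] at this
  exact this

theorem exists_reg0 (f : PX X) : ∃ n : ℕ, ∀ m, n ≤ m → T (m : ℤ) * f ∈ Reg0 k := by
  obtain ⟨n, hn⟩ : ∃ n : ℕ, ∀ i : ℤ, i < -n → f.coeff i = 0 := by
    refine ⟨∑ i ∈ f.coeff.support, i.natAbs, fun i hi => ?_⟩
    by_contra h
    have h1 : i.natAbs ≤ ∑ i ∈ f.coeff.support, i.natAbs :=
      Finset.single_le_sum (f := fun i : ℤ => i.natAbs) (fun _ _ => Nat.zero_le _)
        (Finsupp.mem_support_iff.2 h)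
    omega
  refine ⟨n, fun m hm i hi => ?_⟩
  rw [coeff_T_mul]
  exact hn _ (by omega)

theorem exists_regInf (f : PX X) (d : ℤ) : ∃ n : ℕ, ∀ m, n ≤ m → T (-(m : ℤ)) * f ∈ RegInf k d := by
  obtain ⟨n, hn⟩ : ∃ n : ℕ, ∀ i : ℤ, n < i → f.coeff i = 0 := by
    refine ⟨∑ i ∈ f.coeff.support, i.natAbs, fun i hi => ?_⟩
    by_contra h
    have h1 : i.natAbs ≤ ∑ i ∈ f.coeff.support, i.natAbs :=
      Finset.single_le_sum (f := fun i : ℤ => i.natAbs) (fun _ _ => Nat.zero_le _)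
        (Finsupp.mem_support_iff.2 h)
    omega
  refine ⟨n + d.natAbs, fun m hm i hi => ?_⟩
  rw [coeff_T_mul]
  exact hn _ (by omega)

theorem res_x_pow (n : ℕ) : X.res ((X.x : X.B) ^ n) = T n := by
  rw [map_pow, X.res_x, LaurentPolynomial.T_pow, mul_one]

theorem res_w_pow (n : ℕ) : X.res ((X.w : X.B) ^ n) = T (-n) := by
  rw [map_pow, X.res_w, LaurentPolynomial.T_pow]
  congr 1
  ring

theorem G_loc₀ (g : G D) : ∃ n : ℕ, ∀ m, n ≤ m → (X.x : X.B) ^ m • g ∈ G₀ D := by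
  obtain ⟨i, u, v, rfl⟩ := mk_surj D g
  obtain ⟨n, j, hj, hn⟩ := D.loc₀ i i.2
  obtain ⟨a, ha⟩ := exists_reg0 (X := X) (T (n : ℤ) * u + -(D.lam ⟨j, hj⟩))
  obtain ⟨b, hb⟩ := exists_reg0 (X := X) (T (n : ℤ) * v + -(tt X * D.lam ⟨j, hj⟩))
  have h1 : (X.x : X.B) ^ n • mk D i u v =
      mk D ⟨(X.x : X.B) ^ n * i + j, (IC X).add_mem ((IC X).mul_mem_left _ i.2) (D.J_le hj)⟩
        (T (n : ℤ) * u + -(D.lam ⟨j, hj⟩)) (T (n : ℤ) * v + -(tt X * D.lam ⟨j, hj⟩)) := by
    rw [mk_smul, res_x_pow, mk_eq_mk]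
    refine ⟨-⟨j, hj⟩, ?_, ?_, ?_⟩
    · show -j = (X.x : X.B) ^ n * (i : X.B) - ((X.x : X.B) ^ n * (i : X.B) + j)
      ring
    · rw [map_neg]
      ring
    · rw [map_neg]
      ring
  refine ⟨n + (a + b), fun m hm => ?_⟩
  obtain ⟨c, rfl⟩ : ∃ c, m = c + n := ⟨m - n, by omega⟩
  rw [pow_add, mul_smul, h1, mk_smul, res_x_pow]
  exact ⟨_, _, _, mul_mem (pow_mem X.x_mem c) hn, ha c (by omega), hb c (by omega), rfl⟩

theorem G_loc₁ (g : G D) : ∃ n : ℕ, ∀ m, n ≤ m → (X.w : X.B) ^ m • g ∈ G₁ D := by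
  obtain ⟨i, u, v, rfl⟩ := mk_surj D g
  obtain ⟨n, j, hj, hn⟩ := D.loc₁ i i.2
  obtain ⟨a, ha⟩ := exists_regInf (X := X) (T (-(n : ℤ)) * u + -(D.lam ⟨j, hj⟩)) (-1)
  obtain ⟨b, hb⟩ := exists_regInf (X := X) (T (-(n : ℤ)) * v + -(tt X * D.lam ⟨j, hj⟩)) (-1)
  have h1 : (X.w : X.B) ^ n • mk D i u v =
      mk D ⟨(X.w : X.B) ^ n * i + j, (IC X).add_mem ((IC X).mul_mem_left _ i.2) (D.J_le hj)⟩
        (T (-(n : ℤ)) * u + -(D.lam ⟨j, hj⟩)) (T (-(n : ℤ)) * v + -(tt X * D.lam ⟨j, hj⟩)) := by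
    rw [mk_smul, res_w_pow, mk_eq_mk]
    refine ⟨-⟨j, hj⟩, ?_, ?_, ?_⟩
    · show -j = (X.w : X.B) ^ n * (i : X.B) - ((X.w : X.B) ^ n * (i : X.B) + j)
      ring
    · rw [map_neg]
      ring
    · rw [map_neg]
      ring
  refine ⟨n + (a + b), fun m hm => ?_⟩
  obtain ⟨c, rfl⟩ : ∃ c, m = c + n := ⟨m - n, by omega⟩
  rw [pow_add, mul_smul, h1, mk_smul, res_w_pow]
  exact ⟨_, _, _, mul_mem (pow_mem X.w_mem c) hn, ha c (by omega), hb c (by omega), rfl⟩

/-! ### The module of sequences -/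

/-- sequences in `G` -/
def W : Type u := ℕ → G D

noncomputable instance : AddCommGroup (W D) := inferInstanceAs (AddCommGroup (ℕ → G D))

theorem W_ext {a b : W D} (h : ∀ l, a l = b l) : a = b := funext h

theorem add_apply (a b : W D) (l : ℕ) : (a + b) l = a l + b l := rfl

theorem zero_apply (l : ℕ) : (0 : W D) l = 0 := rfl

theorem neg_apply (a : W D) (l : ℕ) : (-a) l = -a l := rfl

noncomputable instance : SMul X.B (W D) :=
  ⟨fun r a l => r • a l + mk D (del r (pi D (a (l + 1)))) 0 0⟩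

theorem smul_apply (r : X.B) (a : W D) (l : ℕ) :
    (r • a) l = r • a l + mk D (del r (pi D (a (l + 1)))) 0 0 := rfl

theorem pi_smul_apply (r : X.B) (a : W D) (l : ℕ) :
    pi D ((r • a) l) = X.res r * pi D (a l) := by
  rw [smul_apply, map_add, pi_smul, pi_mk, mul_zero, sub_zero, add_zero]

noncomputable instance : Module X.B (W D) where
  one_smul a := by
    refine W_ext D fun l => ?_
    rw [smul_apply, one_smul, del_one_left, mk_zero, add_zero]
  mul_smul r s a := by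
    refine W_ext D fun l => ?_
    rw [smul_apply, smul_apply D r, pi_smul_apply, smul_apply D s, mul_smul, smul_add, mk_smul,
      mul_zero, del_mul_left, add_assoc, ← mk_add, add_zero]
  smul_zero r := by
    refine W_ext D fun l => ?_
    rw [smul_apply, zero_apply, zero_apply, smul_zero, map_zero, del_zero_right, mk_zero, add_zero]
  smul_add r a b := by
    refine W_ext D fun l => ?_
    rw [smul_apply, add_apply, add_apply, add_apply, smul_apply, smul_apply, map_add,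
      del_add_right, smul_add]
    have h := mk_add D (del r (pi D (a (l + 1)))) (del r (pi D (b (l + 1)))) 0 0 0 0
    rw [add_zero] at h
    rw [h]
    abel
  add_smul r s a := by
    refine W_ext D fun l => ?_
    rw [smul_apply, add_apply, smul_apply, smul_apply, del_add_left, add_smul]
    have h := mk_add D (del r (pi D (a (l + 1)))) (del s (pi D (a (l + 1)))) 0 0 0 0
    rw [add_zero] at h
    rw [h]
    abel
  zero_smul a := by
    refine W_ext D fun l => ?_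
    rw [smul_apply, zero_smul, del_zero_left, mk_zero, add_zero]
    rfl

/-- the sequences with `a l = 0` for `l ≥ m` -/
noncomputable def lev (m : ℕ) : Submodule X.B (W D) where
  carrier := {a | ∀ l, m ≤ l → a l = 0}
  add_mem' := by
    intro a b ha hb l hl
    rw [add_apply, ha l hl, hb l hl, add_zero]
  zero_mem' := fun _ _ => rfl
  smul_mem' := by
    intro r a ha l hl
    rw [smul_apply, ha l hl, ha (l + 1) (by omega), smul_zero, map_zero, del_zero_right, mk_zero,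
      add_zero]

theorem mem_lev {m : ℕ} {a : W D} : a ∈ lev D m ↔ ∀ l, m ≤ l → a l = 0 := Iff.rfl

/-- the sections of `E_m` over `U₀` -/
noncomputable def M0 (m : ℕ) : AddSubgroup (lev D m) where
  carrier := {a | ∀ l, (a : W D) l ∈ G₀ D}
  add_mem' := fun ha hb l => add_mem (ha l) (hb l)
  zero_mem' := fun _ => zero_mem _
  neg_mem' := fun ha l => neg_mem (ha l)

/-- the sections of `E_m` over `U₁` -/
noncomputable def M1 (m : ℕ) : AddSubgroup (lev D m) where
  carrier := {a | ∀ l, (a : W D) l + mk D (sig (pi D ((a : W D) (l + 1)))) 0 0 ∈ G₁ D}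
  add_mem' := by
    intro a b ha hb l
    have h := add_mem (ha l) (hb l)
    have h1 : ((a + b : lev D m) : W D) l +
        mk D (sig (pi D (((a + b : lev D m) : W D) (l + 1)))) 0 0 =
        (a : W D) l + mk D (sig (pi D ((a : W D) (l + 1)))) 0 0 +
        ((b : W D) l + mk D (sig (pi D ((b : W D) (l + 1)))) 0 0) := by
      show (a : W D) l + (b : W D) l +
        mk D (sig (pi D ((a : W D) (l + 1) + (b : W D) (l + 1)))) 0 0 = _
      rw [map_add, sig_add]
      have h := mk_add D (sig (pi D ((a : W D) (l + 1)))) (sig (pi D ((b : W D) (l + 1)))) 0 0 0 0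
      rw [add_zero] at h
      rw [h]
      abel
    exact h1 ▸ h
  zero_mem' := by
    intro l
    have h1 : ((0 : lev D m) : W D) l + mk D (sig (pi D (((0 : lev D m) : W D) (l + 1)))) 0 0 =
        0 := by
      show (0 : G D) + mk D (sig (pi D (0 : G D))) 0 0 = 0
      rw [map_zero, sig_zero, mk_zero, add_zero]
    rw [h1]
    exact zero_mem _
  neg_mem' := by
    intro a ha l
    have h := neg_mem (ha l)
    have h1 : ((-a : lev D m) : W D) l + mk D (sig (pi D (((-a : lev D m) : W D) (l + 1)))) 0 0 =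
        -((a : W D) l + mk D (sig (pi D ((a : W D) (l + 1)))) 0 0) := by
      show -((a : W D) l) + mk D (sig (pi D (-((a : W D) (l + 1))))) 0 0 = _
      have h2 : sig (-(pi D ((a : W D) (l + 1)))) = -sig (pi D ((a : W D) (l + 1))) := by
        have h3 := sig_add (-(pi D ((a : W D) (l + 1)))) (pi D ((a : W D) (l + 1)))
        rw [neg_add_cancel, sig_zero] at h3
        exact eq_neg_of_add_eq_zero_left h3.symm
      rw [map_neg, h2, neg_add]
      congr 1
      have h4 := mk_neg D (sig (pi D ((a : W D) (l + 1)))) 0 0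
      rw [neg_zero] at h4
      exact h4
    exact h1 ▸ h

theorem mem_M0 {m : ℕ} {a : lev D m} : a ∈ M0 D m ↔ ∀ l, (a : W D) l ∈ G₀ D := Iff.rfl

theorem mem_M1 {m : ℕ} {a : lev D m} : a ∈ M1 D m ↔
    ∀ l, (a : W D) l + mk D (sig (pi D ((a : W D) (l + 1)))) 0 0 ∈ G₁ D := Iff.rfl

theorem pi_M1 {m : ℕ} {a : lev D m} (ha : a ∈ M1 D m) (l : ℕ) :
    pi D ((a : W D) l) ∈ RegInf k 0 := by
  have h := pi_G₁ D (ha l)
  rwa [map_add, pi_mk, mul_zero, sub_zero, add_zero] at h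

theorem smul_M0 {m : ℕ} {r : X.B} (hr : r ∈ X.B₀) {a : lev D m} (ha : a ∈ M0 D m) :
    r • a ∈ M0 D m := by
  intro l
  show (r • (a : W D)) l ∈ G₀ D
  rw [smul_apply]
  exact add_mem (G₀_smul D hr (ha l)) ⟨_, _, _, del_mem hr (pi_G₀ D (ha (l + 1))), reg0_zero,
    reg0_zero, rfl⟩

theorem smul_M1_eq {m : ℕ} (r : X.B) (a : lev D m) (l : ℕ) :
    ((r • a : lev D m) : W D) l + mk D (sig (pi D (((r • a : lev D m) : W D) (l + 1)))) 0 0 =
      r • ((a : W D) l + mk D (sig (pi D ((a : W D) (l + 1)))) 0 0) +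
        mk D (del' r (pi D ((a : W D) (l + 1)))) 0 0 := by
  show (r • (a : W D)) l + mk D (sig (pi D ((r • (a : W D)) (l + 1)))) 0 0 = _
  rw [pi_smul_apply, smul_apply, smul_add, mk_smul, mul_zero, add_assoc, add_assoc, ← mk_add,
    ← mk_add, del_add_sig, add_zero]

theorem smul_M1 {m : ℕ} {r : X.B} (hr : r ∈ X.B₁) {a : lev D m} (ha : a ∈ M1 D m) :
    r • a ∈ M1 D m := by
  intro l
  have h := add_mem (G₁_smul D hr (ha l))
    (show mk D (del' r (pi D ((a : W D) (l + 1)))) 0 0 ∈ G₁ D from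
      ⟨_, _, _, del'_mem hr (pi_M1 D ha (l + 1)), regInf_zero _, regInf_zero _, rfl⟩)
  exact (smul_M1_eq D r a l) ▸ h

theorem del_x_pow (n : ℕ) (f : PX X) : del ((X.x : X.B) ^ n) f = 0 := by
  have h : L X (T (n : ℤ)) = (X.x : X.B) ^ n := by
    have := L_C_mul_T X 1 n
    rw [map_one, map_one, one_mul, one_mul, zpow_natCast, Units.val_pow_eq_pow_val] at this
    exact this
  rw [← h]
  exact del_L _ _

theorem del'_w_pow (n : ℕ) (f : PX X) : del' ((X.w : X.B) ^ n) f = 0 := by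
  have h : L' X (T (-(n : ℤ))) = (X.w : X.B) ^ n := by
    have := L'_C_mul_T X 1 (-n)
    rw [map_one, map_one, one_mul, one_mul, inv_zpow, zpow_neg, inv_inv, zpow_natCast,
      Units.val_pow_eq_pow_val] at this
    exact this
  apply Subtype.ext
  rw [del'_val, ← h, res_L', map_mul, sub_self]
  rfl

theorem exists_bound (P : ℕ → ℕ → Prop) (h : ∀ l, ∃ n, ∀ m, n ≤ m → P l m) (m : ℕ) :
    ∃ n, ∀ l < m, P l n := by
  choose f hf using h
  refine ⟨∑ l ∈ Finset.range m, f l, fun l hl => hf l _ ?_⟩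
  exact Finset.single_le_sum (f := f) (fun _ _ => Nat.zero_le _) (Finset.mem_range.2 hl)

theorem M0_loc {m : ℕ} (a : lev D m) : ∃ n : ℕ, (X.x : X.B) ^ n • a ∈ M0 D m := by
  obtain ⟨n, hn⟩ := exists_bound (fun l n => (X.x : X.B) ^ n • (a : W D) l ∈ G₀ D)
    (fun l => G_loc₀ D _) m
  refine ⟨n, fun l => ?_⟩
  show ((X.x : X.B) ^ n • (a : W D)) l ∈ G₀ D
  rw [smul_apply, del_x_pow, mk_zero, add_zero]
  rcases lt_or_ge l m with h | h
  · exact hn l h
  · rw [a.2 l h, smul_zero]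
    exact zero_mem _

theorem M1_loc {m : ℕ} (a : lev D m) : ∃ n : ℕ, (X.w : X.B) ^ n • a ∈ M1 D m := by
  obtain ⟨n, hn⟩ := exists_bound (fun l n => (X.w : X.B) ^ n •
    ((a : W D) l + mk D (sig (pi D ((a : W D) (l + 1)))) 0 0) ∈ G₁ D) (fun l => G_loc₁ D _) m
  refine ⟨n, fun l => ?_⟩
  rw [smul_M1_eq, del'_w_pow, mk_zero, add_zero]
  rcases lt_or_ge l m with h | h
  · exact hn l h
  · rw [a.2 l h, a.2 (l + 1) (by omega), map_zero, sig_zero, mk_zero, add_zero, smul_zero]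
    exact zero_mem _

/-- the sheaf `E_m` -/
noncomputable def E (m : ℕ) : Sh X where
  M := lev D m
  M₀ := M0 D m
  M₁ := M1 D m
  smul₀ _ hb _ hm := smul_M0 D hb hm
  smul₁ _ hb _ hm := smul_M1 D hb hm
  loc₀ := M0_loc D
  loc₁ := M1_loc D

/-- the shift -/
noncomputable def shift (i : ℕ) : W D →ₗ[X.B] W D where
  toFun a l := a (l + i)
  map_add' _ _ := rfl
  map_smul' r a := by
    refine W_ext D fun l => ?_
    show (r • a) (l + i) = r • a (l + i) + mk D (del r (pi D (a (l + 1 + i)))) 0 0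
    rw [smul_apply, show l + i + 1 = l + 1 + i by omega]

end Pool.Agent.H62DW
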