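import Pool.Agent.H62DW.Defs

/-!
# Every map `E_m → 𝒪_C(-1)` kills `s E_m`
-/

set_option autoImplicit false

open LaurentPolynomial Pool.Agent.DWC

universe u

namespace Pool.Agent.H62DW

variable {k : Type u} [Field k] {X : Nbhd k} (D : Dat X)

/-! ### Calculations in `G` -/

private theorem k_mk_add (i i' : IC X) (u v u' v' : PX X) :
    mk D i u v + mk D i' u' v' = mk D (i + i') (u + u') (v + v') := rfl

private theorem k_mk_zero : mk D 0 0 0 = 0 := rfl

private theorem k_mk_smul (b : X.B) (i : IC X) (u v : PX X) :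
    b • mk D i u v = mk D (b • i) (X.res b * u) (X.res b * v) := rfl

private theorem k_pi_mk (i : IC X) (u v : PX X) : pi D (mk D i u v) = tt X * u - v := rfl

private theorem k_mk_rel (j : D.J) (hj : (j : X.B) ∈ IC X) :
    mk D ⟨j, hj⟩ 0 0 = mk D 0 (D.lam j) (tt X * D.lam j) := by
  unfold mk
  rw [Submodule.Quotient.eq]
  refine ⟨j, ?_⟩
  simp only [relMap, LinearMap.coe_mk, AddHom.coe_mk, Prod.mk_sub_mk, sub_zero, zero_sub]

private theorem k_J_le : D.J ≤ IC X := by
  have h : ∀ i ≤ D.c, D.J ≤ D.Q i := by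
    intro i
    induction i with
    | zero => exact fun _ => D.Q_zero.ge
    | succ i ih => exact fun hi => (ih (by omega)).trans (D.Q_le i (by omega))
  exact (h D.c le_rfl).trans D.Q_last.le

private theorem k_exists_mk (g : G D) : ∃ (i : IC X) (u v : PX X), g = mk D i u v := by
  obtain ⟨⟨i, u, v⟩, rfl⟩ := Submodule.Quotient.mk_surjective _ g
  exact ⟨i, u, v, rfl⟩

private theorem k_del_zero (r : X.B) : del r (0 : PX X) = 0 := by
  apply Subtype.ext
  simp [del]

private theorem k_del_one_of_mem (i : IC X) : del (i : X.B) (1 : PX X) = i := by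
  apply Subtype.ext
  have h : X.res (i : X.B) = 0 := i.2
  simp [del, h]

private theorem k_del_L_one (f : PX X) : del (L X f) (1 : PX X) = 0 := by
  apply Subtype.ext
  simp [del, res_L]

private theorem k_sig_zero : sig (0 : PX X) = 0 := by
  apply Subtype.ext
  simp [sig]

private theorem k_sig_one : sig (1 : PX X) = 0 := by
  apply Subtype.ext
  simp [sig]

/-! ### Sequences with one entry -/

/-- the sequence with the entry `g` at the place `l` -/
private noncomputable def sgl (l : ℕ) (g : G D) : W D := fun i => if i = l then g else 0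

private theorem sgl_apply (l : ℕ) (g : G D) (i : ℕ) : sgl D l g i = if i = l then g else 0 := rfl

private theorem sgl_mem {l m : ℕ} (hl : l < m) (g : G D) : sgl D l g ∈ lev D m := by
  intro i hi
  rw [sgl_apply, if_neg (by omega)]

private theorem sgl_add (l : ℕ) (g g' : G D) : sgl D l (g + g') = sgl D l g + sgl D l g' := by
  funext i
  change (if i = l then g + g' else 0) = (if i = l then g else 0) + (if i = l then g' else 0)
  split_ifs
  · rfl
  · rw [add_zero]

/-- multiplication when there is no carry -/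
private theorem smul_sgl (r : X.B) (l : ℕ) (g : G D) (h : del r (pi D g) = 0) :
    r • sgl D l g = sgl D l (r • g) := by
  funext i
  rw [smul_apply, sgl_apply, sgl_apply, sgl_apply]
  by_cases h1 : i + 1 = l
  · rw [if_pos h1, if_neg (by omega), if_neg (by omega), smul_zero, zero_add, h]
    exact k_mk_zero D
  · rw [if_neg h1, map_zero, k_del_zero, k_mk_zero, add_zero]
    split_ifs
    · rfl
    · rw [smul_zero]

/-- multiplication of `(0, 0, -1)` by a function which vanishes on `C` -/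
private theorem smul_sgl_succ (i : IC X) (l : ℕ) :
    (i : X.B) • sgl D (l + 1) (mk D 0 0 (-1)) = sgl D l (mk D i 0 0) := by
  funext j
  rw [smul_apply, sgl_apply, sgl_apply, sgl_apply]
  by_cases h1 : j = l
  · subst h1
    rw [if_neg (by omega), if_pos rfl, if_pos rfl, smul_zero, zero_add, k_pi_mk]
    have h2 : tt X * 0 - -1 = (1 : PX X) := by ring
    rw [h2, k_del_one_of_mem]
  · rw [if_neg (by omega : ¬ j + 1 = l + 1), if_neg h1, map_zero, k_del_zero, k_mk_zero, add_zero]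
    split_ifs
    · have h : X.res (i : X.B) = 0 := i.2
      rw [k_mk_smul, h, smul_zero, zero_mul, zero_mul]
      exact k_mk_zero D
    · rw [smul_zero]

private theorem k_coeff_T_mul (n : ℤ) (f : k[T;T⁻¹]) (i : ℤ) :
    ((T n : k[T;T⁻¹]) * f).coeff i = f.coeff (i - n) := by
  have h : i = n + (i - n) := by ring
  conv_lhs => rw [h]
  exact (AddMonoidAlgebra.coeff_single_mul_add f (1 : k) n (i - n)).trans (one_mul _)

section Main

variable {D} {m : ℕ} {F : lev D m →+ k[T;T⁻¹]}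

private theorem sgl_M0 {l : ℕ} (hl : l < m) {g : G D} (hg : g ∈ G₀ D) :
    (⟨sgl D l g, sgl_mem D hl g⟩ : lev D m) ∈ M0 D m := by
  intro i
  change sgl D l g i ∈ G₀ D
  rw [sgl_apply]
  split_ifs
  · exact hg
  · exact zero_mem _

private theorem sgl_M1 {l : ℕ} (hl : l < m) {g : G D} (hg : g ∈ G₁ D) (h : sig (pi D g) = 0) :
    (⟨sgl D l g, sgl_mem D hl g⟩ : lev D m) ∈ M1 D m := by
  intro i
  change sgl D l g i + mk D (sig (pi D (sgl D l g (i + 1)))) 0 0 ∈ G₁ D
  rw [sgl_apply, sgl_apply]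
  by_cases h1 : i + 1 = l
  · rw [if_pos h1, if_neg (by omega), h, k_mk_zero, add_zero]
    exact zero_mem _
  · rw [if_neg h1, map_zero, k_sig_zero, k_mk_zero, add_zero]
    split_ifs
    · exact hg
    · exact zero_mem _

end Main

private theorem k_T_coeff (n i : ℤ) : (T n : k[T;T⁻¹]).coeff i = if n = i then 1 else 0 := by
  change (Finsupp.single n (1 : k)) i = _
  exact Finsupp.single_apply

private theorem k_T_mem_Reg0 {n : ℤ} (hn : 0 ≤ n) : (T n : k[T;T⁻¹]) ∈ Reg0 k := by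
  intro i hi
  rw [k_T_coeff, if_neg (by omega)]

private theorem k_T_mem_RegInf {n d : ℤ} (hn : n ≤ d) : (T n : k[T;T⁻¹]) ∈ RegInf k d := by
  intro i hi
  rw [k_T_coeff, if_neg (by omega)]

private theorem k_one_mem_Reg0 : (1 : k[T;T⁻¹]) ∈ Reg0 k := by
  rw [← T_zero]
  exact k_T_mem_Reg0 le_rfl

private theorem k_zero_mem_Reg : (0 : k[T;T⁻¹]) ∈ Reg0 k := fun _ _ => rfl

private theorem k_zero_mem_RegI (d : ℤ) : (0 : k[T;T⁻¹]) ∈ RegInf k d := fun _ _ => rfl

theorem key (hlam : ∃ j, D.lam j ≠ 0) (m : ℕ) (F : lev D m →+ k[T;T⁻¹])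
    (hF : ∀ (b : X.B) (a : lev D m), F (b • a) = X.res b * F a)
    (h0 : ∀ a ∈ M0 D m, F a ∈ Reg0 k) (h1 : ∀ a ∈ M1 D m, F a ∈ RegInf k (-1))
    (a : lev D m) (ha : ∀ l, m ≤ l + 1 → (a : W D) l = 0) : F a = 0 := by
  -- the values on the sequences with one entry
  have hadd : ∀ {l : ℕ} (hl : l < m) (g g' : G D), F ⟨sgl D l (g + g'), sgl_mem D hl _⟩ =
      F ⟨sgl D l g, sgl_mem D hl _⟩ + F ⟨sgl D l g', sgl_mem D hl _⟩ := by
    intro l hl g g'
    rw [← map_add]
    congr 1
    exact Subtype.ext (sgl_add D l g g')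
  have hsm : ∀ {l : ℕ} (hl : l < m) (b : X.B) (g : G D), del b (pi D g) = 0 →
      F ⟨sgl D l (b • g), sgl_mem D hl _⟩ = X.res b * F ⟨sgl D l g, sgl_mem D hl _⟩ := by
    intro l hl b g h
    rw [← hF]
    congr 1
    exact Subtype.ext (smul_sgl D b l g h).symm
  have hT : tt X * T (-1) = (1 : k[T;T⁻¹]) := by
    unfold tt
    rw [← T_add]
    rfl
  have hT2 : tt X * T (-2) = (T (-1) : k[T;T⁻¹]) := by
    unfold tt
    rw [← T_add]
    rfl
  -- the multiples of `(0, 1, T)`
  have hp : ∀ {l : ℕ} (hl : l < m) (f : PX X), F ⟨sgl D l (mk D 0 f (tt X * f)), sgl_mem D hl _⟩ =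
      f * F ⟨sgl D l (mk D 0 1 (tt X)), sgl_mem D hl _⟩ := by
    intro l hl f
    have h2 := hsm hl (L X f) (mk D 0 1 (tt X)) (by
      rw [k_pi_mk, mul_one, sub_self, k_del_zero])
    rw [res_L] at h2
    rw [← h2]
    congr 1
    apply Subtype.ext
    change sgl D l _ = sgl D l _
    congr 1
    rw [k_mk_smul, res_L, smul_zero, mul_one, mul_comm]
  -- `F(0, 1, T) = c₀ + c₁ T`
  have hq0 : ∀ {l : ℕ} (hl : l < m), F ⟨sgl D l (mk D 0 1 (tt X)), sgl_mem D hl _⟩ ∈ Reg0 k := by
    intro l hl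
    refine h0 _ (sgl_M0 hl ⟨0, 1, tt X, X.B₀.zero_mem, k_one_mem_Reg0,
      k_T_mem_Reg0 zero_le_one, rfl⟩)
  have hq1 : ∀ {l : ℕ} (hl : l < m) (i : ℤ), 1 < i →
      (F ⟨sgl D l (mk D 0 1 (tt X)), sgl_mem D hl _⟩).coeff i = 0 := by
    intro l hl i hi
    have h2 := h1 _ (sgl_M1 (m := m) (g := mk D 0 (T (-2)) (tt X * T (-2))) hl
      ⟨0, T (-2), tt X * T (-2), X.B₁.zero_mem, k_T_mem_RegInf (by norm_num), by
        rw [hT2]
        exact k_T_mem_RegInf le_rfl, rfl⟩ (by rw [k_pi_mk, sub_self, k_sig_zero]))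
    rw [hp hl] at h2
    have h3 := h2 (i - 2) (by omega)
    rw [k_coeff_T_mul] at h3
    have h4 : i - 2 - -2 = i := by ring
    rwa [h4] at h3
  -- `F(0, 0, -1) = - c₁`
  have he : ∀ {l : ℕ} (hl : l < m), F ⟨sgl D l (mk D 0 (T (-1)) 0), sgl_mem D hl _⟩ =
      F ⟨sgl D l (mk D 0 0 (-1)), sgl_mem D hl _⟩ +
        T (-1) * F ⟨sgl D l (mk D 0 1 (tt X)), sgl_mem D hl _⟩ := by
    intro l hl
    rw [← hp hl, ← hadd hl]
    congr 1
    apply Subtype.ext
    change sgl D l _ = sgl D l _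
    congr 1
    rw [k_mk_add, hT]
    congr 1
    · rw [add_zero]
    · rw [zero_add]
    · ring
  have hη : ∀ {l : ℕ} (hl : l < m), F ⟨sgl D l (mk D 0 (T (-1)) 0), sgl_mem D hl _⟩ ∈
      RegInf k (-1) := by
    intro l hl
    refine h1 _ (sgl_M1 hl ⟨0, T (-1), 0, X.B₁.zero_mem, k_T_mem_RegInf le_rfl,
      k_zero_mem_RegI (-1), rfl⟩ ?_)
    rw [k_pi_mk, hT, sub_zero, k_sig_one]
  have hε : ∀ {l : ℕ} (hl : l < m), F ⟨sgl D l (mk D 0 0 (-1)), sgl_mem D hl _⟩ ∈ Reg0 k := by
    intro l hl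
    refine h0 _ (sgl_M0 hl ⟨0, 0, -1, X.B₀.zero_mem, k_zero_mem_Reg, ?_, rfl⟩)
    intro i hi
    have h2 : (-1 : k[T;T⁻¹]).coeff i = -((1 : k[T;T⁻¹]).coeff i) := rfl
    rw [h2, k_one_mem_Reg0 i hi, neg_zero]
  have hval : ∀ {l : ℕ} (hl : l < m), F ⟨sgl D l (mk D 0 1 (tt X)), sgl_mem D hl _⟩ = 0 →
      F ⟨sgl D l (mk D 0 0 (-1)), sgl_mem D hl _⟩ = 0 := by
    intro l hl h
    have h2 := he hl
    rw [h, mul_zero, add_zero] at h2
    have h3 := hη hl
    rw [h2] at h3
    have h4 := hε hl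
    apply AddMonoidAlgebra.coeff_injective
    apply DFunLike.ext
    intro i
    by_cases hi : i < 0
    · exact h4 i hi
    · exact h3 i (by omega)
  -- the functions which vanish on `C`
  have hI : ∀ {l : ℕ} (hl : l + 1 < m) (i : IC X),
      F ⟨sgl D l (mk D i 0 0), sgl_mem D (by omega) _⟩ = 0 := by
    intro l hl i
    have h2 : (⟨sgl D l (mk D i 0 0), sgl_mem D (by omega) _⟩ : lev D m) =
        (i : X.B) • ⟨sgl D (l + 1) (mk D 0 0 (-1)), sgl_mem D hl _⟩ :=
      Subtype.ext (smul_sgl_succ D i l).symm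
    have h3 : X.res (i : X.B) = 0 := i.2
    rw [h2, hF, h3, zero_mul]
  have hq : ∀ {l : ℕ} (hl : l + 1 < m),
      F ⟨sgl D l (mk D 0 1 (tt X)), sgl_mem D (by omega) _⟩ = 0 := by
    intro l hl
    obtain ⟨j, hj⟩ := hlam
    have hjI : (j : X.B) ∈ IC X := k_J_le D j.2
    have h2 := hI hl ⟨j, hjI⟩
    have h3 : (⟨sgl D l (mk D ⟨j, hjI⟩ 0 0), sgl_mem D (by omega) _⟩ : lev D m) =
        ⟨sgl D l (mk D 0 (D.lam j) (tt X * D.lam j)), sgl_mem D (by omega) _⟩ :=
      Subtype.ext (congrArg (sgl D l) (k_mk_rel D j hjI))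
    rw [h3, hp (by omega)] at h2
    exact (mul_eq_zero.1 h2).resolve_left hj
  -- all values at the places `l < m - 1`
  have hall : ∀ {l : ℕ} (hl : l + 1 < m) (g : G D),
      F ⟨sgl D l g, sgl_mem D (by omega) _⟩ = 0 := by
    intro l hl g
    obtain ⟨i, u, v, rfl⟩ := k_exists_mk D g
    have h2 : mk D i u v = mk D i 0 0 + (mk D 0 u (tt X * u) +
        (L X (tt X * u - v)) • mk D 0 0 (-1)) := by
      rw [k_mk_smul, k_mk_add, k_mk_add, res_L]
      congr 1
      · rw [smul_zero, add_zero, add_zero]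
      · ring
      · ring
    rw [h2, hadd (by omega), hadd (by omega), hI hl, hp (by omega), hq hl,
      hsm (by omega) _ _ ?_, hval (by omega) (hq hl)]
    · ring
    · rw [k_pi_mk]
      have h3 : tt X * 0 - -1 = (1 : PX X) := by ring
      rw [h3, k_del_L_one]
  -- the sum of the entries
  have hsum : a = ∑ l ∈ (Finset.range m).attach,
      (⟨sgl D l ((a : W D) l), sgl_mem D (Finset.mem_range.1 l.2) _⟩ : lev D m) := by
    apply Subtype.ext
    rw [Submodule.coe_sum]
    funext i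
    have h2 : ∀ (s : Finset {x // x ∈ Finset.range m}) (f : {x // x ∈ Finset.range m} → W D),
        (∑ l ∈ s, f l) i = ∑ l ∈ s, f l i := by
      intro s f
      exact Finset.sum_apply i s f
    rw [h2]
    have h3 : ∑ l ∈ (Finset.range m).attach, sgl D l ((a : W D) l) i =
        ∑ l ∈ Finset.range m, sgl D l ((a : W D) l) i :=
      Finset.sum_attach (Finset.range m) fun l => sgl D l ((a : W D) l) i
    rw [h3]
    by_cases hi : i < m
    · rw [Finset.sum_eq_single i]
      · rw [sgl_apply, if_pos rfl]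
      · intro l _ hl
        rw [sgl_apply, if_neg (fun h => hl h.symm)]
      · intro h
        exact absurd (Finset.mem_range.2 hi) h
    · rw [a.2 i (by omega), Finset.sum_eq_zero]
      intro l hl
      rw [sgl_apply, if_neg]
      intro h
      rw [Finset.mem_range] at hl
      omega
  rw [hsum, map_sum]
  refine Finset.sum_eq_zero fun l _ => ?_
  have hlm := Finset.mem_range.1 l.2
  by_cases hl : (l : ℕ) + 1 < m
  · exact hall hl _
  · have h2 : (⟨sgl D l ((a : W D) l), sgl_mem D hlm _⟩ : lev D m) = 0 := by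
      apply Subtype.ext
      rw [ha l (by omega)]
      funext i
      change sgl D l 0 i = 0
      rw [sgl_apply]
      split_ifs <;> rfl
    rw [h2, map_zero]

end Pool.Agent.H62DW
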